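import Pool.Agent.Lib.MP_a569f2_lc.GS

/-! Greibach systems describe exactly the context-free languages. -/

namespace Pool.Agent.Lib.MP_a569f2_lc

open ContextFreeGrammar

theorem IsGS.isContextFree {Δ : Type} [Finite Δ] {K : Language Δ} (hK : IsGS K) :
    K.IsContextFree := by
  classical
  obtain ⟨G, A₀, rfl⟩ := hK
  have := G.fin
  let Rs : Set (ContextFreeRule Δ G.Γ) :=
    {r | (r.output = [] ∧ [] ∈ G.Lang r.input) ∨
      ∃ (a : Δ) (γ : List G.Γ), γ.length ≤ G.m ∧
        r.output = Symbol.terminal a :: γ.map Symbol.nonterminal ∧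
        ∀ w ∈ Prd G.Lang γ, a :: w ∈ G.Lang r.input}
  have hRs : Rs.Finite := by
    have h1 : ((Set.univ : Set G.Γ) ×ˢ ((Set.univ : Set Δ) ×ˢ
        {l : List G.Γ | l.length ≤ G.m})).Finite :=
      Set.finite_univ.prod (Set.finite_univ.prod (List.finite_length_le G.Γ G.m))
    refine ((h1.image fun p => (⟨p.1, Symbol.terminal p.2.1 :: p.2.2.map Symbol.nonterminal⟩ :
      ContextFreeRule Δ G.Γ)).union
      (Set.finite_range fun A : G.Γ => (⟨A, []⟩ : ContextFreeRule Δ G.Γ))).subset ?_
    rintro ⟨A, o⟩ (⟨h, -⟩ | ⟨a, γ, hl, h, -⟩)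
    · simp only at h
      subst h
      exact Or.inr ⟨A, rfl⟩
    · simp only at h
      subst h
      exact Or.inl ⟨(A, a, γ), ⟨trivial, trivial, hl⟩, rfl⟩
  let g : ContextFreeGrammar Δ := ⟨G.Γ, A₀, hRs.toFinset⟩
  let sem : Symbol Δ G.Γ → Set (List Δ) := fun X => match X with
    | Symbol.terminal a => {w | w = [a]}
    | Symbol.nonterminal A => G.Lang A
  have hsemN : ∀ γ : List G.Γ, Prd sem (γ.map Symbol.nonterminal) = Prd G.Lang γ :=
    fun γ => prd_map _ γ
  have hsemT : ∀ w : List Δ, w ∈ Prd sem (w.map Symbol.terminal) := by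
    intro w
    induction w with
    | nil => rfl
    | cons a w ih => exact ⟨[a], w, rfl, ih, rfl⟩
  have sound : ∀ α β : List (Symbol Δ g.NT), g.Derives α β → Prd sem β ⊆ Prd sem α := by
    intro α β h
    induction h with
    | refl => exact le_rfl
    | tail _ h2 ih =>
      refine le_trans ?_ ih
      obtain ⟨r, hr, hrw⟩ := h2
      obtain ⟨p, q, rfl, rfl⟩ := hrw.exists_parts
      have hr' : r ∈ Rs := hRs.mem_toFinset.1 hr
      intro w hw
      obtain ⟨u, v, hu, hv, rfl⟩ := mem_prd_append.1 hw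
      obtain ⟨u₁, u₂, hu₁, hu₂, rfl⟩ := mem_prd_append.1 hu
      refine mem_prd_append.2 ⟨_, v, mem_prd_append.2 ⟨u₁, u₂, hu₁, mem_prd_single.2 ?_, rfl⟩,
        hv, rfl⟩
      rcases hr' with ⟨h1, h2⟩ | ⟨a, γ, -, h1, h2⟩
      · rw [h1, mem_prd_nil] at hu₂
        subst hu₂
        exact h2
      · rw [h1] at hu₂
        obtain ⟨x, y, hx, hy, rfl⟩ := hu₂
        have hx' : x = [a] := hx
        subst hx'
        rw [hsemN] at hy
        exact h2 y hy
  have complete : ∀ n : ℕ, ∀ w : List Δ, w.length < n → ∀ A : G.Γ, w ∈ G.Lang A →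
      g.Derives [Symbol.nonterminal A] (w.map Symbol.terminal) := by
    intro n
    induction n with
    | zero => intro w h; omega
    | succ n ih =>
      have inner : ∀ (γ : List G.Γ) (w : List Δ), w.length < n → w ∈ Prd G.Lang γ →
          g.Derives (γ.map Symbol.nonterminal) (w.map Symbol.terminal) := by
        intro γ
        induction γ with
        | nil =>
          intro w _ hw
          rw [mem_prd_nil] at hw
          subst hw
          exact Derives.refl _
        | cons B γ ihγ =>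
          rintro w hl ⟨u, v, hu, hv, rfl⟩
          simp only [List.length_append] at hl
          have h1 := (ih u (by omega) B hu).append_right (γ.map Symbol.nonterminal)
          have h2 := (ihγ v (by omega) hv).append_left (u.map Symbol.terminal)
          simpa using h1.trans h2
      intro w hl A hw
      cases w with
      | nil =>
        refine Produces.single ⟨⟨A, []⟩, hRs.mem_toFinset.2 (Or.inl ⟨rfl, hw⟩), ?_⟩
        exact ContextFreeRule.Rewrites.input_output
      | cons a w =>
        obtain ⟨γ, hγ, hm, hs⟩ := G.step A a w hw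
        have h1 : g.Produces [Symbol.nonterminal A]
            (Symbol.terminal a :: γ.map Symbol.nonterminal) :=
          ⟨⟨A, Symbol.terminal a :: γ.map Symbol.nonterminal⟩,
            hRs.mem_toFinset.2 (Or.inr ⟨a, γ, hγ, rfl, hs⟩), ContextFreeRule.Rewrites.input_output⟩
        have h2 := (inner γ w (by simpa using hl) hm).append_left [Symbol.terminal a]
        exact h1.trans_derives (by simpa using h2)
  refine ⟨g, ?_⟩
  ext w
  rw [mem_language_iff]
  constructor
  · intro h
    exact mem_prd_single.1 (sound _ _ h (hsemT w))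
  · intro h
    exact complete (w.length + 1) w (by omega) A₀ h

section
variable {Δ : Type} (g : ContextFreeGrammar Δ)

/-- Tree-shaped derivations. -/
inductive Der : List (Symbol Δ g.NT) → List (Symbol Δ g.NT) → Prop
  | nil : Der [] []
  | keep (X : Symbol Δ g.NT) {α β : List (Symbol Δ g.NT)} : Der α β → Der (X :: α) (X :: β)
  | expand (r : ContextFreeRule Δ g.NT) {u α β : List (Symbol Δ g.NT)} : r ∈ g.rules →
      Der r.output u → Der α β → Der (Symbol.nonterminal r.input :: α) (u ++ β)

variable {g}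

theorem Der.rfl' (α : List (Symbol Δ g.NT)) : Der g α α := by
  induction α with
  | nil => exact Der.nil
  | cons X α ih => exact Der.keep X ih

theorem Der.append {α₁ β₁ α₂ β₂ : List (Symbol Δ g.NT)} (h₁ : Der g α₁ β₁) (h₂ : Der g α₂ β₂) :
    Der g (α₁ ++ α₂) (β₁ ++ β₂) := by
  induction h₁ with
  | nil => simpa using h₂
  | keep X _ ih => exact Der.keep X ih
  | expand r hr h1 _ _ ih =>
    rw [List.append_assoc]
    exact Der.expand r hr h1 ih

theorem Der.split {α₁ α₂ β : List (Symbol Δ g.NT)} (h : Der g (α₁ ++ α₂) β) :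
    ∃ β₁ β₂, β = β₁ ++ β₂ ∧ Der g α₁ β₁ ∧ Der g α₂ β₂ := by
  induction α₁ generalizing β with
  | nil => exact ⟨[], β, rfl, Der.nil, h⟩
  | cons X α ih =>
    rw [List.cons_append] at h
    generalize hγ : X :: (α ++ α₂) = γ at h
    cases h with
    | nil => cases hγ
    | keep Y h' =>
      simp only [List.cons.injEq] at hγ
      obtain ⟨rfl, rfl⟩ := hγ
      obtain ⟨β₁, β₂, rfl, h1, h2⟩ := ih h'
      exact ⟨X :: β₁, β₂, rfl, Der.keep X h1, h2⟩
    | expand r hr h1 h' =>
      simp only [List.cons.injEq] at hγ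
      obtain ⟨rfl, rfl⟩ := hγ
      obtain ⟨β₁, β₂, rfl, h2, h3⟩ := ih h'
      exact ⟨_ ++ β₁, β₂, by simp, Der.expand r hr h1 h2, h3⟩

theorem Der.derives {α β : List (Symbol Δ g.NT)} (h : Der g α β) : g.Derives α β := by
  induction h with
  | nil => exact Derives.refl _
  | keep X _ ih => exact ih.append_left [X]
  | @expand r u α β hr _ _ ih1 ih2 =>
    have h1 : g.Produces (Symbol.nonterminal r.input :: α) (r.output ++ α) :=
      ⟨r, hr, ContextFreeRule.Rewrites.head α⟩
    exact h1.trans_derives ((ih1.append_right α).trans (ih2.append_left u))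

theorem Der.of_derives {α β : List (Symbol Δ g.NT)} (h : g.Derives α β) : Der g α β := by
  induction h using Relation.ReflTransGen.head_induction_on with
  | refl => exact Der.rfl' _
  | head h1 _ ih =>
    obtain ⟨r, hr, hrw⟩ := h1
    obtain ⟨p, q, rfl, rfl⟩ := hrw.exists_parts
    obtain ⟨β₁, β₂, rfl, h2, h3⟩ := ih.split
    obtain ⟨β₃, β₄, rfl, h4, h5⟩ := h2.split
    refine Der.append (Der.append h4 ?_) h3
    simpa using Der.expand r hr h5 Der.nil

theorem derives_append {α₁ β₁ α₂ β₂ : List (Symbol Δ g.NT)} (h₁ : g.Derives α₁ β₁)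
    (h₂ : g.Derives α₂ β₂) : g.Derives (α₁ ++ α₂) (β₁ ++ β₂) :=
  (h₁.append_right α₂).trans (h₂.append_left β₁)

theorem first_piece {α β : List (Symbol Δ g.NT)} (h : Der g α β) :
    ∀ (a : Δ) (w : List Δ), β = Symbol.terminal a :: w.map Symbol.terminal →
      ∃ W β₂ w₁ w₂, (W :: β₂) <:+ α ∧ g.Derives α (W :: β₂) ∧
        g.Derives [W] (Symbol.terminal a :: w₁.map Symbol.terminal) ∧
        g.Derives β₂ (w₂.map Symbol.terminal) ∧ w = w₁ ++ w₂ := by
  induction h with
  | nil => intro a w h; cases h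
  | @keep X α β h _ =>
    intro a w he
    simp only [List.cons.injEq] at he
    obtain ⟨rfl, rfl⟩ := he
    exact ⟨_, α, [], w, List.suffix_rfl, Derives.refl _, Derives.refl _, h.derives, rfl⟩
  | @expand r u α β hr h1 h2 _ ih2 =>
    intro a w he
    have hN : g.Derives [Symbol.nonterminal r.input] u := by
      simpa using (Der.expand r hr h1 Der.nil).derives
    cases u with
    | nil =>
      obtain ⟨W, β₂, w₁, w₂, h3, h4, h5, h6, h7⟩ := ih2 a w he
      refine ⟨W, β₂, w₁, w₂, h3.trans (List.suffix_cons _ _), ?_, h5, h6, h7⟩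
      simpa using derives_append hN h4
    | cons Y u =>
      simp only [List.cons_append, List.cons.injEq] at he
      obtain ⟨rfl, he⟩ := he
      obtain ⟨w₁, w₂, rfl, rfl, rfl⟩ := List.append_eq_map_iff.1 he
      exact ⟨_, α, w₁, w₂, List.suffix_rfl, Derives.refl _, hN, h2.derives, rfl⟩

theorem left_corner {α β : List (Symbol Δ g.NT)} (h : Der g α β) :
    ∀ (Y : Symbol Δ g.NT) (a : Δ) (w : List Δ),
      β = Y :: Symbol.terminal a :: w.map Symbol.terminal →
      (∃ W β₂ w₁ w₂, (W :: β₂) <:+ α.tail ∧ g.Derives α (Y :: W :: β₂) ∧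
        g.Derives [W] (Symbol.terminal a :: w₁.map Symbol.terminal) ∧
        g.Derives β₂ (w₂.map Symbol.terminal) ∧ w = w₁ ++ w₂) ∨
      (∃ r ∈ g.rules, ∃ W β₂ w₁ w₂ w₃, (W :: β₂) <:+ r.output ∧
        g.Derives [Symbol.nonterminal r.input] (Y :: W :: β₂) ∧
        g.Derives [W] (Symbol.terminal a :: w₁.map Symbol.terminal) ∧
        g.Derives β₂ (w₂.map Symbol.terminal) ∧
        g.Derives α (Symbol.nonterminal r.input :: w₃.map Symbol.terminal) ∧
        w = w₁ ++ w₂ ++ w₃) := by
  induction h with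
  | nil => intro Y a w h; cases h
  | @keep X α β h _ =>
    intro Y a w he
    simp only [List.cons.injEq] at he
    obtain ⟨rfl, he⟩ := he
    obtain ⟨W, β₂, w₁, w₂, h3, h4, h5, h6, h7⟩ := first_piece h a w he
    exact Or.inl ⟨W, β₂, w₁, w₂, h3, h4.append_left [X], h5, h6, h7⟩
  | @expand r u α β hr h1 h2 ih1 ih2 =>
    intro Y a w he
    have hN : g.Derives [Symbol.nonterminal r.input] u := by
      simpa using (Der.expand r hr h1 Der.nil).derives
    have hN1 : g.Derives [Symbol.nonterminal r.input] r.output :=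
      Produces.single ⟨r, hr, ContextFreeRule.Rewrites.input_output⟩
    clear h1
    rcases u with _ | ⟨Y', _ | ⟨b, u⟩⟩
    · rcases ih2 Y a w he with ⟨W, β₂, w₁, w₂, h3, h4, h5, h6, h7⟩ |
        ⟨r', hr', W, β₂, w₁, w₂, w₃, h3, h4, h5, h6, h7, h8⟩
      · refine Or.inl ⟨W, β₂, w₁, w₂, h3.trans (List.tail_suffix _), ?_, h5, h6, h7⟩
        simpa using derives_append hN h4
      · refine Or.inr ⟨r', hr', W, β₂, w₁, w₂, w₃, h3, h4, h5, h6, ?_, h8⟩
        simpa using derives_append hN h7
    · simp only [List.cons_append, List.nil_append, List.cons.injEq] at he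
      obtain ⟨rfl, he⟩ := he
      obtain ⟨W, β₂, w₁, w₂, h3, h4, h5, h6, h7⟩ := first_piece h2 a w he
      refine Or.inl ⟨W, β₂, w₁, w₂, h3, ?_, h5, h6, h7⟩
      simpa using derives_append hN h4
    · simp only [List.cons_append, List.cons.injEq] at he
      obtain ⟨rfl, rfl, he⟩ := he
      obtain ⟨v₁, v₂, rfl, rfl, rfl⟩ := List.append_eq_map_iff.1 he
      rcases ih1 Y' a v₁ rfl with ⟨W, β₂, w₁, w₂, h3, h4, h5, h6, h7⟩ |
        ⟨r', hr', W, β₂, w₁, w₂, w₃, h3, h4, h5, h6, h7, h8⟩
      · refine Or.inr ⟨r, hr, W, β₂, w₁, w₂, v₂, h3.trans (List.tail_suffix _), hN1.trans h4,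
          h5, h6, h2.derives.append_left [Symbol.nonterminal r.input], by rw [h7]⟩
      · refine Or.inr ⟨r', hr', W, β₂, w₁, w₂, w₃ ++ v₂, h3, h4, h5, h6, ?_, by simp [h8]⟩
        simpa using derives_append (hN1.trans h7) h2.derives

end

theorem isGS_of_isContextFree {Δ : Type} [Finite Δ] {K : Language Δ} (hK : K.IsContextFree) :
    IsGS K := by
  classical
  obtain ⟨g, rfl⟩ := hK
  let Sy : Set (Symbol Δ g.NT) :=
    {X | (∃ a, X = Symbol.terminal a) ∨ X = Symbol.nonterminal g.initial ∨
      ∃ r ∈ g.rules, X = Symbol.nonterminal r.input ∨ X ∈ r.output}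
  have hSy : Sy.Finite := by
    refine (((Set.finite_range (Symbol.terminal : Δ → Symbol Δ g.NT)).union
      (g.rules.finite_toSet.biUnion (t := fun r => insert (Symbol.nonterminal r.input)
        {X | X ∈ r.output}) fun r _ => (List.finite_toSet r.output).insert _)).insert
      (Symbol.nonterminal g.initial)).subset ?_
    rintro X (⟨a, rfl⟩ | rfl | ⟨r, hr, h⟩)
    · exact Or.inr (Or.inl ⟨a, rfl⟩)
    · exact Or.inl rfl
    · exact Or.inr (Or.inr (Set.mem_biUnion hr h))
  let Γ := Symbol Δ g.NT ⊕ (Symbol Δ g.NT × Symbol Δ g.NT)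
  let Lang : Γ → Set (List Δ) := fun B => match B with
    | Sum.inl X => {w | g.Derives [X] (w.map Symbol.terminal)}
    | Sum.inr (X, Y) => {w | g.Derives [X] (Y :: w.map Symbol.terminal)}
  let U : Set Γ := (Sum.inl '' Sy) ∪ (Sum.inr '' (Sy ×ˢ Sy))
  have hU : U.Finite := (hSy.image _).union ((hSy.prod hSy).image _)
  have hprd : ∀ (β : List (Symbol Δ g.NT)) (w : List Δ),
      w ∈ Prd Lang (β.map Sum.inl) ↔ g.Derives β (w.map Symbol.terminal) := by
    intro β
    induction β with
    | nil =>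
      intro w
      simp only [List.map_nil, mem_prd_nil]
      constructor
      · rintro rfl; exact Derives.refl _
      · intro h
        have h' := Der.of_derives h
        generalize hγ : w.map Symbol.terminal = γ at h'
        cases h'
        simpa using hγ
    | cons X β ih =>
      intro w
      constructor
      · rintro ⟨u, v, hu, hv, rfl⟩
        have hu' : g.Derives [X] (u.map Symbol.terminal) := hu
        simpa using derives_append hu' ((ih v).1 hv)
      · intro h
        obtain ⟨β₁, β₂, h1, h2, h3⟩ := Der.split (α₁ := [X]) (α₂ := β) (Der.of_derives h)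
        obtain ⟨u, v, rfl, rfl, rfl⟩ := List.map_eq_append_iff.1 h1
        exact ⟨u, v, h2.derives, (ih v).2 h3.derives, rfl⟩
  have hT : ∀ a, Symbol.terminal a ∈ Sy := fun a => Or.inl ⟨a, rfl⟩
  refine isGS_of_finite_set U hU Lang (g.rules.sup (fun r => r.output.length) + 1) ?_
    (Sum.inl (Symbol.nonterminal g.initial)) (Or.inl ⟨_, Or.inr (Or.inl rfl), rfl⟩)
  rintro B (⟨X, hX, rfl⟩ | ⟨⟨X, Y⟩, ⟨hX, hY⟩, rfl⟩) a w hw
  · refine ⟨[Sum.inr (X, Symbol.terminal a)], ?_, by simp, mem_prd_single.2 hw, ?_⟩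
    · intro B hB
      simp only [List.mem_singleton] at hB
      subst hB
      exact Or.inr ⟨_, ⟨hX, hT a⟩, rfl⟩
    · intro w' hw'
      exact (mem_prd_single (Lang := Lang)).1 hw'
  · have hw' : g.Derives [X] (Y :: Symbol.terminal a :: w.map Symbol.terminal) := hw
    rcases left_corner (Der.of_derives hw') Y a w rfl with ⟨W, β₂, w₁, w₂, h3, -⟩ |
        ⟨r, hr, W, β₂, w₁, w₂, w₃, h3, h4, h5, h6, h7, rfl⟩
    · simp at h3
    · have hsub : ∀ Z ∈ W :: β₂, Z ∈ Sy := fun Z hZ =>
        Or.inr (Or.inr ⟨r, hr, Or.inr (h3.subset hZ)⟩)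
      refine ⟨Sum.inr (W, Symbol.terminal a) :: (β₂.map Sum.inl ++
        [Sum.inr (X, Symbol.nonterminal r.input)]), ?_, ?_, ?_, ?_⟩
      · intro B hB
        simp only [List.mem_cons, List.mem_append, List.mem_map, List.not_mem_nil, or_false] at hB
        rcases hB with rfl | ⟨Z, hZ, rfl⟩ | rfl
        · exact Or.inr ⟨_, ⟨hsub W (by simp), hT a⟩, rfl⟩
        · exact Or.inl ⟨Z, hsub Z (by simp [hZ]), rfl⟩
        · exact Or.inr ⟨(X, Symbol.nonterminal r.input), ⟨hX, Or.inr (Or.inr ⟨r, hr, Or.inl rfl⟩)⟩, rfl⟩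
      · have h8 := h3.length_le
        have h9 : r.output.length ≤ g.rules.sup (fun r => r.output.length) :=
          Finset.le_sup (f := fun r => r.output.length) hr
        simp only [List.length_cons, List.length_append, List.length_map, List.length_nil] at h8 ⊢
        omega
      · exact ⟨w₁, w₂ ++ w₃, h5, mem_prd_append.2 ⟨w₂, w₃, (hprd _ _).2 h6,
          mem_prd_single.2 h7, rfl⟩, by simp⟩
      · rintro w' ⟨u₁, v, hu₁, hv, rfl⟩
        obtain ⟨u₂, u₃, hu₂, hu₃, rfl⟩ := mem_prd_append.1 hv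
        have e1 : g.Derives [W] (Symbol.terminal a :: u₁.map Symbol.terminal) := hu₁
        have e2 := (hprd _ _).1 hu₂
        have e3 : g.Derives [X] (Symbol.nonterminal r.input :: u₃.map Symbol.terminal) :=
          (mem_prd_single (Lang := Lang)).1 hu₃
        have e4 := derives_append h4 (Derives.refl (g := g) (u₃.map Symbol.terminal))
        have e5 := ((derives_append e1 e2).append_left [Y]).append_right (u₃.map Symbol.terminal)
        show g.Derives [X] (Y :: (a :: (u₁ ++ (u₂ ++ u₃))).map Symbol.terminal)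
        refine e3.trans (Derives.trans e4 ?_)
        simpa using e5

end Pool.Agent.Lib.MP_a569f2_lc
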