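import Pool.Agent.Lib.MP_a569f2_lc.Main

/-! Construction of an `n`-turn first-move automaton from the normal form. -/

namespace Pool.Agent.Lib.MP_a569f2_lc

theorem forall₂_flatten {α β : Type} {P : α → β → Prop} {m : ℕ} (b : Fin m → List α)
    (u : Fin m → List β) (h : ∀ j, List.Forall₂ P (b j) (u j)) :
    List.Forall₂ P (List.ofFn b).flatten (List.ofFn u).flatten := by
  induction m with
  | zero => simp
  | succ m ih =>
    simp only [List.ofFn_succ, List.flatten_cons]
    exact List.rel_append (h 0) (ih _ _ fun j => h j.succ)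

theorem forall₂_split {α β : Type} {P : α → β → Prop} {μ : List α} {u v : List β}
    (h : List.Forall₂ P μ (u ++ v)) :
    ∃ μ₁ μ₂, μ = μ₁ ++ μ₂ ∧ List.Forall₂ P μ₁ u ∧ List.Forall₂ P μ₂ v := by
  induction u generalizing μ with
  | nil => exact ⟨[], μ, rfl, List.Forall₂.nil, h⟩
  | cons a u ih =>
    rw [List.cons_append] at h
    cases h with
    | cons h1 h2 =>
      obtain ⟨μ₁, μ₂, rfl, h3, h4⟩ := ih h2
      exact ⟨_ :: μ₁, μ₂, rfl, List.Forall₂.cons h1 h3, h4⟩

theorem forall₂_flatten_inv {α β : Type} {P : α → β → Prop} {m : ℕ} (u : Fin m → List β)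
    (μ : List α) (h : List.Forall₂ P μ (List.ofFn u).flatten) :
    ∃ b : Fin m → List α, μ = (List.ofFn b).flatten ∧ ∀ j, List.Forall₂ P (b j) (u j) := by
  induction m generalizing μ with
  | zero => exact ⟨fun j => j.elim0, by simpa using h, fun j => j.elim0⟩
  | succ m ih =>
    simp only [List.ofFn_succ, List.flatten_cons] at h
    obtain ⟨μ₁, μ₂, rfl, h1, h2⟩ := forall₂_split h
    obtain ⟨b, rfl, hb⟩ := ih _ μ₂ h2
    refine ⟨Fin.cons μ₁ b, by simp [List.ofFn_succ], fun j => ?_⟩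
    refine Fin.cases ?_ (fun j => ?_) j
    · simpa using h1
    · simpa using hb j

theorem path_blocks {S Δ : Type} {E : S → Δ → S → Prop} {m : ℕ} (s : Fin (m + 1) → S)
    (b : Fin m → List Δ) (h : ∀ j : Fin m, Path E (s j.castSucc) (b j) (s j.succ)) :
    Path E (s 0) (List.ofFn b).flatten (s (Fin.last m)) := by
  induction m with
  | zero => simpa using Path.nil _
  | succ m ih =>
    simp only [List.ofFn_succ, List.flatten_cons]
    refine path_append_iff.2 ⟨s (Fin.succ 0), h 0, ?_⟩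
    exact ih (fun j => s j.succ) (fun j => b j.succ) fun j => h j.succ

theorem path_blocks_inv {T Q Γ : Type} {m : ℕ} (s : Fin (m + 1) → Q)
    (b : Fin m → List (Rule T Q Γ)) (hb : ∀ j, ∃ r t, b j = r :: t ∧ r.src = s j.castSucc)
    (h : Path Ctl (s 0) (List.ofFn b).flatten (s (Fin.last m))) :
    ∀ j : Fin m, Path Ctl (s j.castSucc) (b j) (s j.succ) := by
  induction m with
  | zero => exact fun j => j.elim0
  | succ m ih =>
    simp only [List.ofFn_succ, List.flatten_cons] at h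
    obtain ⟨r, h1, h2⟩ := path_append_iff.1 h
    have hr : r = s (Fin.succ 0) := by
      cases m with
      | zero => simpa using path_nil_iff.1 h2
      | succ m =>
        obtain ⟨r', t, e1, e2⟩ := hb (Fin.succ 0)
        rw [List.ofFn_succ, List.flatten_cons, e1, List.cons_append] at h2
        obtain ⟨_, ⟨e3, -⟩, -⟩ := path_cons_iff.1 h2
        rw [← e3, e2]
        rfl
    subst hr
    intro j
    refine Fin.cases h1 (fun j => ?_) j
    exact ih (fun j => s j.succ) (fun j => b j.succ) (fun j => hb j.succ) h2 j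

section
variable {T Δ : Type} {n : ℕ} (G : GSys Δ) (c : Δ → Fin (n + 1)) (h : Δ → List T)

/-- Control edges of the constructed automaton. -/
def CE (s : Fin (n + 2) ⊕ Fin (n + 1)) (a : Δ) (t : Fin (n + 2) ⊕ Fin (n + 1)) : Prop :=
  (s = Sum.inl (c a).castSucc ∨ s = Sum.inr (c a)) ∧ (t = Sum.inr (c a) ∨ t = Sum.inl (c a).succ)

/-- The rule `r` simulates reading the letter `a`. -/
def Lab (r : Rule T (Fin (n + 2) ⊕ Fin (n + 1)) G.Γ) (a : Δ) : Prop :=
  r.read = h a ∧ CE c r.src a r.dst ∧ r.push.length ≤ G.m ∧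
    ∀ w ∈ Prd G.Lang r.push.reverse, a :: w ∈ G.Lang r.pop

/-- The automaton. -/
def buildM [Finite Δ] (A₀ : G.Γ) : SPDA T where
  Q := Fin (n + 2) ⊕ Fin (n + 1)
  Γ := G.Γ
  finQ := inferInstance
  finΓ := G.fin
  δ := {r | ∃ a, Lab G c h r a}
  finδ := by
    have := G.fin
    have h1 : ((Set.univ : Set (G.Γ × (Fin (n + 2) ⊕ Fin (n + 1)) × Δ ×
        (Fin (n + 2) ⊕ Fin (n + 1)))) ×ˢ {l : List G.Γ | l.length ≤ G.m}).Finite :=
      Set.finite_univ.prod (List.finite_length_le G.Γ G.m)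
    refine (h1.image fun p => (⟨p.1.1, p.1.2.1, h p.1.2.2.1, p.2, p.1.2.2.2⟩ :
      Rule T (Fin (n + 2) ⊕ Fin (n + 1)) G.Γ)).subset ?_
    rintro ⟨Z, q, x, γ, p⟩ ⟨a, h1, -, h2, -⟩
    simp only at h1 h2
    subst h1
    exact ⟨((Z, q, a, p), γ), ⟨trivial, h2⟩, rfl⟩
  q0 := Sum.inl 0
  qt := Sum.inl (Fin.succ 0)
  Z0 := A₀
  F := {Sum.inl (Fin.last _)}
  R := {p | (∃ a, Lab G c h p.1 a) ∧ (∃ a, Lab G c h p.2 a) ∧
    ∃ j : Fin (n + 1), p.1.src = Sum.inl j.castSucc ∧ p.2.src = Sum.inl j.succ}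
  R_sub := fun _ hp => ⟨hp.1, hp.2.1⟩

theorem lab_down {γ : List G.Γ} {μ : List (Rule T (Fin (n + 2) ⊕ Fin (n + 1)) G.Γ)}
    (hs : SP Rule.pop (fun r => r.push.reverse) γ μ) :
    ∀ w, List.Forall₂ (Lab G c h) μ w → w ∈ Prd G.Lang γ := by
  induction hs with
  | nil => intro w hw; cases hw; rfl
  | cons r _ ih =>
    intro w hw
    cases hw with
    | cons h1 h2 =>
      obtain ⟨u, v, hu, hv, rfl⟩ := mem_prd_append.1 (ih _ h2)
      exact ⟨_, v, h1.2.2.2 u hu, hv, rfl⟩

theorem lab_up (hG : ∀ B, [] ∉ G.Lang B)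
    (l : List ((Fin (n + 2) ⊕ Fin (n + 1)) × Δ × (Fin (n + 2) ⊕ Fin (n + 1)))) :
    ∀ γ : List G.Γ, (∀ p ∈ l, CE c p.1 p.2.1 p.2.2) → l.map (·.2.1) ∈ Prd G.Lang γ →
      ∃ μ, SP Rule.pop (fun r => r.push.reverse) γ μ ∧
        List.Forall₂ (fun r p => Lab G c h r p.2.1 ∧ r.src = p.1 ∧ r.dst = p.2.2) μ l := by
  induction l with
  | nil =>
    intro γ _ hγ
    cases γ with
    | nil => exact ⟨[], SP.nil, List.Forall₂.nil⟩
    | cons B γ =>
      obtain ⟨u, v, hu, -, e⟩ := hγ
      simp only [List.map_nil, List.nil_eq_append_iff] at e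
      exact absurd (e.1 ▸ hu) (hG B)
  | cons p l ih =>
    intro γ hl hγ
    cases γ with
    | nil => simp at hγ
    | cons B γ =>
      obtain ⟨u, v, hu, hv, e⟩ := hγ
      cases u with
      | nil => exact absurd hu (hG B)
      | cons a u =>
        simp only [List.map_cons, List.cons_append, List.cons.injEq] at e
        obtain ⟨rfl, e⟩ := e
        obtain ⟨γ', h1, h2, h3⟩ := G.step B _ u hu
        obtain ⟨μ, h4, h5⟩ := ih (γ' ++ γ) (fun q hq => hl q (by simp [hq]))
          (mem_prd_append.2 ⟨u, v, h2, hv, e⟩)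
        let r : Rule T (Fin (n + 2) ⊕ Fin (n + 1)) G.Γ := ⟨B, p.1, h p.2.1, γ'.reverse, p.2.2⟩
        refine ⟨r :: μ, SP.cons r (by simpa [r] using h4),
          List.Forall₂.cons ⟨⟨rfl, hl p (by simp), by simpa [r] using h1, ?_⟩, rfl, rfl⟩ h5⟩
        simpa [r] using h3

/-- Potential of a control state. -/
def psi : Fin (n + 2) ⊕ Fin (n + 1) → ℕ
  | Sum.inl i => 2 * i.1
  | Sum.inr i => 2 * i.1 + 1

theorem lab_colour {s t : Fin (n + 2) ⊕ Fin (n + 1)}
    {b : List (Rule T (Fin (n + 2) ⊕ Fin (n + 1)) G.Γ)} (hp : Path Ctl s b t) :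
    ∀ u, List.Forall₂ (Lab G c h) b u →
      psi s ≤ psi t ∧ ∀ a ∈ u, psi s ≤ 2 * (c a).1 + 1 ∧ 2 * (c a).1 + 1 ≤ psi t := by
  induction hp with
  | nil => intro u hu; cases hu; simp
  | @cons s s' t r b h1 _ ih =>
    intro u hu
    cases hu with
    | @cons _ a _ u h2 h3 =>
      obtain ⟨h4, h5⟩ := ih u h3
      obtain ⟨rfl, rfl⟩ := h1
      have e1 : psi r.src ≤ 2 * (c a).1 + 1 := by
        rcases h2.2.1.1 with e | e <;> rw [e] <;> simp [psi]
      have e2 : 2 * (c a).1 + 1 ≤ psi r.dst := by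
        rcases h2.2.1.2 with e | e <;> rw [e] <;> simp [psi]
      refine ⟨by omega, ?_⟩
      intro a' ha'
      rcases List.mem_cons.1 ha' with rfl | ha'
      · exact ⟨e1, by omega⟩
      · have := h5 a' ha'
        exact ⟨by omega, this.2⟩

/-- Annotation of a block by control states. -/
def ann (j : Fin (n + 1)) : Fin (n + 2) ⊕ Fin (n + 1) → List Δ → Δ →
    List ((Fin (n + 2) ⊕ Fin (n + 1)) × Δ × (Fin (n + 2) ⊕ Fin (n + 1)))
  | s, [], a => [(s, a, Sum.inl j.succ)]
  | s, b :: l, a => (s, b, Sum.inr j) :: ann j (Sum.inr j) l a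

theorem ann_spec (j : Fin (n + 1)) (l : List Δ) (a : Δ) (s : Fin (n + 2) ⊕ Fin (n + 1)) :
    (ann j s l a).map (·.2.1) = l ++ [a] ∧
    Path (fun s p t => p.1 = s ∧ p.2.2 = t) s (ann j s l a) (Sum.inl j.succ) ∧
    (∃ ini las, ann j s l a = ini ++ [las] ∧ las.2.2 = Sum.inl j.succ ∧
      ∀ p ∈ ini, p.2.2 = Sum.inr j) ∧
    (∃ p t, ann j s l a = p :: t ∧ p.1 = s) ∧
    ((s = Sum.inl j.castSucc ∨ s = Sum.inr j) → (∀ b ∈ l ++ [a], c b = j) →
      ∀ p ∈ ann j s l a, CE c p.1 p.2.1 p.2.2) := by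
  induction l generalizing s with
  | nil =>
    refine ⟨rfl, Path.cons ⟨rfl, rfl⟩ (Path.nil _), ⟨[], _, rfl, rfl, by simp⟩, ⟨_, _, rfl, rfl⟩, ?_⟩
    intro hs hc p hp
    simp only [ann, List.mem_singleton] at hp
    subst hp
    have : c a = j := hc a (by simp)
    subst this
    exact ⟨hs, Or.inr rfl⟩
  | cons b l ih =>
    obtain ⟨h1, h2, ⟨ini, las, h3, h4, h5⟩, -, h6⟩ := ih (Sum.inr j)
    refine ⟨by simp [ann, h1], Path.cons ⟨rfl, rfl⟩ h2,
      ⟨(s, b, Sum.inr j) :: ini, las, by simp [ann, h3], h4, ?_⟩, ⟨_, _, rfl, rfl⟩, ?_⟩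
    · intro p hp
      rcases List.mem_cons.1 hp with rfl | hp
      · rfl
      · exact h5 p hp
    · intro hs hc p hp
      rcases List.mem_cons.1 hp with rfl | hp
      · have : c b = j := hc b (by simp)
        subst this
        exact ⟨hs, Or.inl rfl⟩
      · exact h6 (Or.inr rfl) (fun b' hb' => hc b' (List.mem_cons_of_mem _ hb')) p hp

end

theorem forall₂_path {α β S : Type} {P : α → β → Prop} {E : S → α → S → Prop}
    {E' : S → β → S → Prop} (hE : ∀ r p s t, P r p → E' s p t → E s r t) {μ : List α}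
    {l : List β} (h : List.Forall₂ P μ l) {s t : S} (hp : Path E' s l t) : Path E s μ t := by
  induction h generalizing s with
  | nil => exact path_nil_iff.2 (path_nil_iff.1 hp)
  | cons h1 _ ih =>
    obtain ⟨s', h2, h3⟩ := path_cons_iff.1 hp
    exact Path.cons (hE _ _ _ _ h1 h2) (ih h3)

theorem forall₂_flatMap {α β γ : Type} {f : α → List γ} {g : β → List γ} {μ : List α}
    {l : List β} (h : List.Forall₂ (fun r p => f r = g p) μ l) : μ.flatMap f = l.flatMap g := by
  induction h with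
  | nil => rfl
  | cons h1 _ ih => simp [h1, ih]

theorem forall₂_mem {α β : Type} {P : α → β → Prop} {μ : List α} {l : List β}
    (h : List.Forall₂ P μ l) : ∀ r ∈ μ, ∃ p ∈ l, P r p := by
  induction h with
  | nil => simp
  | cons h1 _ ih =>
    intro r hr
    rcases List.mem_cons.1 hr with rfl | hr
    · exact ⟨_, by simp, h1⟩
    · obtain ⟨p, hp, h2⟩ := ih r hr
      exact ⟨p, by simp [hp], h2⟩

theorem exists_forall₂ {α β : Type} {P : α → β → Prop} (μ : List α) (h : ∀ r ∈ μ, ∃ p, P r p) :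
    ∃ l, List.Forall₂ P μ l := by
  induction μ with
  | nil => exact ⟨[], List.Forall₂.nil⟩
  | cons r μ ih =>
    obtain ⟨p, hp⟩ := h r (by simp)
    obtain ⟨l, hl⟩ := ih fun r' hr' => h r' (by simp [hr'])
    exact ⟨p :: l, List.Forall₂.cons hp hl⟩

theorem FormC.fspda {T : Type} {n : ℕ} {L : Language T} (hL : FormC n L) : FSPDA n L := by
  obtain ⟨Δ, _, K, c, h, hK, rfl⟩ := hL
  obtain ⟨G, A₀, hG, hA⟩ := (isGS_of_isContextFree hK).exists_free
  refine ⟨buildM G c h A₀, ?_⟩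
  ext w
  rw [firstLang_iff]
  constructor
  · rintro ⟨f, rfl, k, b, h1, h2, -, h6⟩
    obtain ⟨hδ, hs, hp, rfl⟩ := (run_iff _ _ _ _ _ _).1 h1
    choose u hu using fun j => exists_forall₂ (P := Lab G c h) (b j)
      (fun a ha => hδ a (mem_flatten_ofFn b j ha))
    have hall := forall₂_flatten b u hu
    have hmem := mem_prd_single.1 (lab_down G c h hs _ hall)
    rw [show (buildM G c h A₀).Z0 = A₀ from rfl, hA] at hmem
    have hhead : ∀ j : Fin (n + 1), ∃ r t, b j = r :: t ∧ r.src = Sum.inl j.castSucc := by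
      intro j
      induction j using Fin.induction with
      | zero =>
        obtain ⟨r, t, e⟩ := List.exists_cons_of_length_eq_add_one (h2 0)
        rw [List.ofFn_succ, List.flatten_cons, e, List.cons_append] at hp
        obtain ⟨_, ⟨e3, -⟩, -⟩ := path_cons_iff.1 hp
        exact ⟨r, t, e, e3⟩
      | succ j ih =>
        obtain ⟨r, t, e1, e2⟩ := ih
        obtain ⟨r₁, t₁, r₂, t₂, a1, a2, -, -, i, a3, a4⟩ := h6 j
        rw [e1] at a1
        simp only [List.cons.injEq] at a1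
        obtain ⟨rfl, -⟩ := a1
        simp only at a3 a4
        rw [e2] at a3
        have : j.castSucc = i := Fin.castSucc_injective _ (Sum.inl.inj a3)
        subst this
        exact ⟨r₂, t₂, a2, a4⟩
    have hblk := path_blocks_inv (fun j : Fin (n + 2) => (Sum.inl j : Fin (n + 2) ⊕ Fin (n + 1)))
      b hhead hp
    refine ⟨(List.ofFn u).flatten, ⟨hmem.1, k, u, fun j => ⟨?_, ?_⟩, rfl⟩, ?_⟩
    · exact (hu j).length_eq.symm.trans (h2 j)
    · intro a ha
      have := (lab_colour G c h (hblk j) _ (hu j)).2 a ha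
      simp only [psi, Fin.val_castSucc, Fin.val_succ] at this
      exact Fin.ext (by omega)
    · exact forall₂_flatMap (hall.imp fun _ _ e => e.1)
  · rintro ⟨_, ⟨hv, k, u, hu, rfl⟩, rfl⟩
    have hsplit : ∀ j, ∃ l a, u j = l ++ [a] := by
      intro j
      have hne : u j ≠ [] := by
        intro e
        have := (hu j).1
        rw [e] at this
        simp at this
      exact ⟨_, _, (List.dropLast_concat_getLast hne).symm⟩
    choose l a hla using hsplit
    let an := fun j : Fin (n + 1) => ann j (Sum.inl j.castSucc) (l j) (a j)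
    have hsp := fun j : Fin (n + 1) => ann_spec c j (l j) (a j) (Sum.inl j.castSucc)
    have hmap : (List.ofFn an).flatten.map (·.2.1) = (List.ofFn u).flatten := by
      rw [map_flatten_ofFn]
      congr 2
      funext j
      rw [hla j]
      exact (hsp j).1
    have hne : (List.ofFn u).flatten ≠ [] := by
      rw [List.ofFn_succ, List.flatten_cons, hla 0]
      simp
    have hup1 : ∀ p ∈ (List.ofFn an).flatten, CE c p.1 p.2.1 p.2.2 := by
      intro p hp
      obtain ⟨_, hl, hp⟩ := List.mem_flatten.1 hp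
      obtain ⟨j, rfl⟩ := List.mem_ofFn.1 hl
      exact (hsp j).2.2.2.2 (Or.inl rfl) (fun b hb => (hu j).2 b (hla j ▸ hb)) p hp
    have hup2 : (List.ofFn an).flatten.map (·.2.1) ∈ Prd G.Lang [A₀] := by
      rw [hmap, mem_prd_single, hA]
      exact ⟨hv, hne⟩
    obtain ⟨μ, hs, hf⟩ := lab_up G c h hG (List.ofFn an).flatten [A₀] hup1 hup2
    · obtain ⟨b, rfl, hb⟩ := forall₂_flatten_inv an μ hf
      have hδ : ∀ r ∈ (List.ofFn b).flatten, ∃ a, Lab G c h r a := by
        intro r hr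
        obtain ⟨p, -, hp⟩ := forall₂_mem hf r hr
        exact ⟨_, hp.1⟩
      have hhead : ∀ j : Fin (n + 1), ∃ r t, b j = r :: t ∧ r.src = Sum.inl j.castSucc := by
        intro j
        obtain ⟨p, t, e1, e2⟩ := (hsp j).2.2.2.1
        have := hb j
        simp only [an] at this
        rw [e1] at this
        obtain ⟨r, t', e3, -, e4⟩ := List.forall₂_cons_right_iff.1 this
        exact ⟨r, t', e4, e3.2.1.trans e2⟩
      refine ⟨_, rfl, k, b, (run_iff _ _ _ _ _ _).2 ⟨hδ, hs, ?_, ?_⟩, ?_, ?_, ?_⟩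
      · refine forall₂_path (E' := fun s p t => p.1 = s ∧ p.2.2 = t) ?_ hf ?_
        · rintro r p s t ⟨-, e1, e2⟩ ⟨rfl, rfl⟩
          exact ⟨e1, e2⟩
        · exact path_blocks (fun j : Fin (n + 2) => (Sum.inl j : Fin (n + 2) ⊕ Fin (n + 1))) an
            fun j => (hsp j).2.1
      · rw [← hmap, List.flatMap_map]
        exact (forall₂_flatMap (hf.imp fun _ _ e => e.1.1)).symm
      · intro j
        refine (hb j).length_eq.trans ?_
        rw [← (hu j).1, hla j, ← (hsp j).1, List.length_map]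
      · obtain ⟨ini, las, e1, e2, e3⟩ := (hsp 0).2.2.1
        have := hb 0
        simp only [an] at this
        rw [e1] at this
        obtain ⟨μ₁, μ₂, e4, e5, e6⟩ := forall₂_split this
        obtain ⟨r, t, e7, e8, rfl⟩ := List.forall₂_cons_right_iff.1 e6
        cases e8
        refine ⟨μ₁, r, e4, e7.2.2.trans e2, ?_⟩
        intro r' hr'
        obtain ⟨p, hp, e9⟩ := forall₂_mem e5 r' hr'
        rw [e9.2.2, e3 p hp]
        intro e
        cases e
      · intro j
        obtain ⟨r₁, t₁, e1, e2⟩ := hhead j.castSucc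
        obtain ⟨r₂, t₂, e3, e4⟩ := hhead j.succ
        refine ⟨r₁, t₁, r₂, t₂, e1, e3, hδ r₁ (mem_flatten_ofFn b j.castSucc (by simp [e1])),
          hδ r₂ (mem_flatten_ofFn b j.succ (by simp [e3])), j.castSucc, e2, e4⟩

theorem fspda_iff_formB {T : Type} {n : ℕ} {L : Language T} : FSPDA n L ↔ FormB n L :=
  ⟨fun ⟨M, hM⟩ => hM ▸ formB_firstLang n M, fun h => h.formC.fspda⟩

theorem fspda_iff_formC {T : Type} {n : ℕ} {L : Language T} : FSPDA n L ↔ FormC n L :=
  ⟨fun h => (fspda_iff_formB.1 h).formC, fun h => h.fspda⟩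

end Pool.Agent.Lib.MP_a569f2_lc
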