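import Mathlib

namespace Pool.Agent.Lib.MP_a569f2_lc

/-- A pushdown rule `Z q x → γ p`. -/
structure Rule (T Q Γ : Type) where
  pop : Γ
  src : Q
  read : List T
  push : List Γ
  dst : Q

/-- A self-regulating pushdown automaton; rules are their own labels. -/
structure SPDA (T : Type) where
  Q : Type
  Γ : Type
  finQ : Finite Q
  finΓ : Finite Γ
  δ : Set (Rule T Q Γ)
  finδ : δ.Finite
  q0 : Q
  qt : Q
  Z0 : Γ
  F : Set Q
  R : Set (Rule T Q Γ × Rule T Q Γ)
  R_sub : R ⊆ δ ×ˢ δ

/-- `Run M c μ d`: from configuration `c` (pushdown with top at the right, state, unread input)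
the moves by the rules `μ` lead to `d`. -/
inductive Run {T : Type} (M : SPDA T) :
    List M.Γ × M.Q × List T → List (Rule T M.Q M.Γ) → List M.Γ × M.Q × List T → Prop
  | nil (c : List M.Γ × M.Q × List T) : Run M c [] c
  | cons (r : Rule T M.Q M.Γ) (β : List M.Γ) (v : List T) (μ : List (Rule T M.Q M.Γ))
      (d : List M.Γ × M.Q × List T) :
      r ∈ M.δ → Run M (β ++ r.push, r.dst, v) μ d →
      Run M (β ++ [r.pop], r.src, r.read ++ v) (r :: μ) d

/-- The language of `M` as an `n`-turn first-move automaton (blocks have length `k + 1`). -/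
def firstLang {T : Type} (n : ℕ) (M : SPDA T) : Language T :=
  {w | ∃ f ∈ M.F, ∃ (k : ℕ) (r : Fin (n + 1) → Fin (k + 1) → Rule T M.Q M.Γ),
    Run M ([M.Z0], M.q0, w) (List.ofFn fun j => List.ofFn (r j)).flatten ([], f, []) ∧
    (r 0 (Fin.last k)).dst = M.qt ∧
    (∀ i, i ≠ Fin.last k → (r 0 i).dst ≠ M.qt) ∧
    ∀ j : Fin n, (r j.castSucc 0, r j.succ 0) ∈ M.R}

/-- The family `FSPDA_n`. -/
def FSPDA {T : Type} (n : ℕ) (L : Language T) : Prop :=
  ∃ M : SPDA T, firstLang n M = L

/-- An `m`-parallel right-linear grammar: start rules `S → X₁⋯Xₘ`, rules `X → wY` and `X → w`. -/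
structure PRLG (m : ℕ) (T : Type) where
  N : Type
  finN : Finite N
  start : Set (Fin m → N)
  rules : Set (N × List T × Option N)
  finRules : rules.Finite

/-- One parallel step: all `m` nonterminals are rewritten simultaneously. -/
def PRLG.Step {m : ℕ} {T : Type} (G : PRLG m T) (s s' : Fin m → List T × Option G.N) : Prop :=
  ∀ i, ∃ X w Y, (X, w, Y) ∈ G.rules ∧ (s i).2 = some X ∧ s' i = ((s i).1 ++ w, Y)

/-- The language generated by an `m`-parallel right-linear grammar. -/
def PRLG.language {m : ℕ} {T : Type} (G : PRLG m T) : Language T :=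
  {w | ∃ X ∈ G.start, ∃ y : Fin m → List T,
    Relation.ReflTransGen G.Step (fun i => ([], some (X i))) (fun i => (y i, none)) ∧
    w = (List.ofFn y).flatten}

/-- The family of `m`-parallel right-linear languages. -/
def PRL {T : Type} (m : ℕ) (L : Language T) : Prop :=
  ∃ G : PRLG m T, G.language = L

/-- Words `u₀ ⋯ uₙ` with all `uⱼ` of one positive length and all letters of `uⱼ` of colour `j`. -/
def EqBlocks {Δ : Type} {n : ℕ} (c : Δ → Fin (n + 1)) : Language Δ :=
  {w | ∃ (k : ℕ) (u : Fin (n + 1) → List Δ),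
    (∀ j, (u j).length = k + 1 ∧ ∀ a ∈ u j, c a = j) ∧ w = (List.ofFn u).flatten}

/-- The image of a language under the homomorphism extending `h`. -/
def homImage {Δ T : Type} (h : Δ → List T) (K : Language Δ) : Language T :=
  {w | ∃ u ∈ K, w = u.flatMap h}

end Pool.Agent.Lib.MP_a569f2_lc
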