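import Pool.Agent.Lib.MP_a569f2_lc.Defs

/-! Semantic Greibach systems: a finite family of languages closed under one-letter quotients. -/

namespace Pool.Agent.Lib.MP_a569f2_lc

/-- Concatenation product of the languages attached to a list of symbols. -/
def Prd {Γ Δ : Type} (Lang : Γ → Set (List Δ)) : List Γ → Set (List Δ)
  | [] => {w | w = []}
  | A :: γ => {w | ∃ u v, u ∈ Lang A ∧ v ∈ Prd Lang γ ∧ w = u ++ v}

section
variable {Γ Δ : Type} {Lang : Γ → Set (List Δ)}

@[simp] theorem mem_prd_nil {w : List Δ} : w ∈ Prd Lang [] ↔ w = [] := Iff.rfl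

theorem mem_prd_cons {A : Γ} {γ : List Γ} {w : List Δ} :
    w ∈ Prd Lang (A :: γ) ↔ ∃ u v, u ∈ Lang A ∧ v ∈ Prd Lang γ ∧ w = u ++ v := Iff.rfl

theorem mem_prd_single {A : Γ} {w : List Δ} : w ∈ Prd Lang [A] ↔ w ∈ Lang A := by
  constructor
  · rintro ⟨u, v, hu, hv, rfl⟩
    rw [mem_prd_nil] at hv
    subst hv
    simpa using hu
  · intro h
    exact ⟨w, [], h, rfl, by simp⟩

theorem mem_prd_append {γ₁ γ₂ : List Γ} {w : List Δ} :
    w ∈ Prd Lang (γ₁ ++ γ₂) ↔ ∃ u v, u ∈ Prd Lang γ₁ ∧ v ∈ Prd Lang γ₂ ∧ w = u ++ v := by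
  induction γ₁ generalizing w with
  | nil =>
    constructor
    · intro h; exact ⟨[], w, rfl, h, rfl⟩
    · rintro ⟨u, v, hu, hv, rfl⟩
      rw [mem_prd_nil] at hu
      subst hu
      simpa using hv
  | cons A γ ih =>
    constructor
    · rintro ⟨u, v, hu, hv, rfl⟩
      obtain ⟨v₁, v₂, h1, h2, rfl⟩ := ih.1 hv
      exact ⟨u ++ v₁, v₂, ⟨u, v₁, hu, h1, rfl⟩, h2, by simp⟩
    · rintro ⟨u, v, ⟨u₁, u₂, h1, h2, rfl⟩, hv, rfl⟩
      exact ⟨u₁, u₂ ++ v, h1, ih.2 ⟨u₂, v, h2, hv, rfl⟩, by simp⟩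

theorem prd_map {Γ' : Type} (f : Γ' → Γ) (γ : List Γ') :
    Prd Lang (γ.map f) = Prd (fun A => Lang (f A)) γ := by
  induction γ with
  | nil => rfl
  | cons A γ ih =>
    ext w
    simp only [List.map_cons, mem_prd_cons, ih]

end

/-- A Greibach system. -/
structure GSys (Δ : Type) where
  Γ : Type
  fin : Finite Γ
  Lang : Γ → Set (List Δ)
  m : ℕ
  step : ∀ A a w, a :: w ∈ Lang A →
    ∃ γ : List Γ, γ.length ≤ m ∧ w ∈ Prd Lang γ ∧ ∀ w' ∈ Prd Lang γ, a :: w' ∈ Lang A

def IsGS {Δ : Type} (K : Set (List Δ)) : Prop := ∃ (G : GSys Δ) (A : G.Γ), G.Lang A = K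

/-- A system given on a finite set of symbols of an arbitrary type. -/
theorem isGS_of_finite_set {Δ Γ : Type} (U : Set Γ) (hU : U.Finite) (Lang : Γ → Set (List Δ))
    (m : ℕ)
    (step : ∀ A ∈ U, ∀ a w, a :: w ∈ Lang A →
      ∃ γ : List Γ, (∀ B ∈ γ, B ∈ U) ∧ γ.length ≤ m ∧ w ∈ Prd Lang γ ∧
        ∀ w' ∈ Prd Lang γ, a :: w' ∈ Lang A)
    (A : Γ) (hA : A ∈ U) : IsGS (Lang A) := by
  refine ⟨⟨U, hU.to_subtype, fun B => Lang B.1, m, ?_⟩, ⟨A, hA⟩, rfl⟩
  rintro ⟨B, hB⟩ a w hw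
  obtain ⟨γ, hγU, hlen, hw1, hw2⟩ := step B hB a w hw
  have hmap : (γ.pmap Subtype.mk hγU).map Subtype.val = γ := by
    simp [List.map_pmap]
  have hp : Prd (fun B : U => Lang B.1) (γ.pmap Subtype.mk hγU) = Prd Lang γ := by
    rw [← prd_map (Lang := Lang) Subtype.val, hmap]
  refine ⟨γ.pmap Subtype.mk hγU, by simpa using hlen, ?_, ?_⟩
  · rw [hp]; exact hw1
  · rw [hp]; exact hw2

/-- Paths of a nondeterministic automaton. -/
inductive Path {S Δ : Type} (E : S → Δ → S → Prop) : S → List Δ → S → Prop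
  | nil (s : S) : Path E s [] s
  | cons {s s' t : S} {a : Δ} {w : List Δ} : E s a s' → Path E s' w t → Path E s (a :: w) t

section
variable {S Δ : Type} {E : S → Δ → S → Prop}

theorem path_nil_iff {s t : S} : Path E s [] t ↔ s = t := by
  constructor
  · intro h; cases h; rfl
  · rintro rfl; exact Path.nil _

theorem path_cons_iff {s t : S} {a : Δ} {w : List Δ} :
    Path E s (a :: w) t ↔ ∃ s', E s a s' ∧ Path E s' w t := by
  constructor
  · intro h; cases h with | cons h1 h2 => exact ⟨_, h1, h2⟩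
  · rintro ⟨s', h1, h2⟩; exact Path.cons h1 h2

theorem path_append_iff {s t : S} {u v : List Δ} :
    Path E s (u ++ v) t ↔ ∃ r, Path E s u r ∧ Path E r v t := by
  induction u generalizing s with
  | nil => simp [path_nil_iff]
  | cons a u ih =>
    simp only [List.cons_append, path_cons_iff, ih]
    constructor
    · rintro ⟨s', h1, r, h2, h3⟩; exact ⟨r, ⟨s', h1, h2⟩, h3⟩
    · rintro ⟨r, ⟨s', h1, h2⟩, h3⟩; exact ⟨s', h1, r, h2, h3⟩

end

/-- Intersection with a regular language. -/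
theorem IsGS.inter_path {Δ S : Type} [Finite S] {K : Set (List Δ)} (hK : IsGS K)
    (E : S → Δ → S → Prop) (I F : Set S) :
    IsGS {w | w ∈ K ∧ ∃ s ∈ I, ∃ t ∈ F, Path E s w t} := by
  obtain ⟨G, A₀, rfl⟩ := hK
  have := G.fin
  let Lang' : G.Γ × Set S × Set S → Set (List Δ) :=
    fun B => {w | w ∈ G.Lang B.1 ∧ ∃ s ∈ B.2.1, ∃ t ∈ B.2.2, Path E s w t}
  have key : ∀ (γ : List G.Γ) (w : List Δ) (s t : S), w ∈ Prd G.Lang γ → Path E s w t →
      ∃ γ' : List (G.Γ × Set S × Set S), γ'.length = γ.length ∧ w ∈ Prd Lang' γ' ∧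
        ∀ w' ∈ Prd Lang' γ', w' ∈ Prd G.Lang γ ∧ Path E s w' t := by
    intro γ
    induction γ with
    | nil =>
      intro w s t hw hp
      rw [mem_prd_nil] at hw
      subst hw
      refine ⟨[], rfl, rfl, ?_⟩
      intro w' hw'
      rw [mem_prd_nil] at hw'
      subst hw'
      exact ⟨rfl, hp⟩
    | cons B γ ih =>
      rintro w s t ⟨u, v, hu, hv, rfl⟩ hp
      obtain ⟨r, h1, h2⟩ := path_append_iff.1 hp
      obtain ⟨γ', hl, hm, hs⟩ := ih v r t hv h2
      refine ⟨(B, {s}, {r}) :: γ', by simp [hl], ⟨u, v, ⟨hu, s, rfl, r, rfl, h1⟩, hm, rfl⟩, ?_⟩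
      rintro w' ⟨u', v', ⟨hu', s', hs', r', hr', hp'⟩, hv', rfl⟩
      simp only [Set.mem_singleton_iff] at hs' hr'
      subst hs' hr'
      obtain ⟨h3, h4⟩ := hs v' hv'
      exact ⟨⟨u', v', hu', h3, rfl⟩, path_append_iff.2 ⟨_, hp', h4⟩⟩
  refine ⟨⟨G.Γ × Set S × Set S, inferInstance, Lang', G.m, ?_⟩, (A₀, I, F), rfl⟩
  rintro ⟨B, I', F'⟩ a w ⟨hw, s, hs, t, ht, hp⟩
  obtain ⟨s', h1, h2⟩ := path_cons_iff.1 hp
  obtain ⟨γ, hl, hm, hsound⟩ := G.step B a w hw
  obtain ⟨γ', hl', hm', hs'⟩ := key γ w s' t hm h2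
  refine ⟨γ', hl' ▸ hl, hm', ?_⟩
  intro w' hw'
  obtain ⟨h3, h4⟩ := hs' w' hw'
  exact ⟨hsound w' h3, s, hs, t, ht, Path.cons h1 h4⟩

/-- Removing the empty word gives a system without nullable symbols. -/
theorem IsGS.exists_free {Δ : Type} {K : Set (List Δ)} (hK : IsGS K) :
    ∃ (G : GSys Δ) (A : G.Γ), (∀ B, [] ∉ G.Lang B) ∧ G.Lang A = {w | w ∈ K ∧ w ≠ []} := by
  obtain ⟨G, A₀, rfl⟩ := hK
  let Lang' : G.Γ → Set (List Δ) := fun B => {w | w ∈ G.Lang B ∧ w ≠ []}
  have key : ∀ (γ : List G.Γ) (w : List Δ), w ∈ Prd G.Lang γ →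
      ∃ γ' : List G.Γ, γ'.length ≤ γ.length ∧ w ∈ Prd Lang' γ' ∧
        ∀ w' ∈ Prd Lang' γ', w' ∈ Prd G.Lang γ := by
    intro γ
    induction γ with
    | nil => intro w hw; exact ⟨[], le_rfl, hw, fun w' hw' => hw'⟩
    | cons B γ ih =>
      rintro w ⟨u, v, hu, hv, rfl⟩
      obtain ⟨γ', hl, hm, hs⟩ := ih v hv
      by_cases hue : u = []
      · subst hue
        refine ⟨γ', by simp; omega, by simpa using hm, ?_⟩
        intro w' hw'
        exact ⟨[], w', hu, hs w' hw', rfl⟩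
      · refine ⟨B :: γ', by simpa using hl, ⟨u, v, ⟨hu, hue⟩, hm, rfl⟩, ?_⟩
        rintro w' ⟨u', v', hu', hv', rfl⟩
        exact ⟨u', v', hu'.1, hs v' hv', rfl⟩
  refine ⟨⟨G.Γ, G.fin, Lang', G.m, ?_⟩, A₀, fun B h => h.2 rfl, rfl⟩
  rintro B a w ⟨hw, -⟩
  obtain ⟨γ, hl, hm, hsound⟩ := G.step B a w hw
  obtain ⟨γ', hl', hm', hs'⟩ := key γ w hm
  exact ⟨γ', hl'.trans hl, hm', fun w' hw' => ⟨hsound w' (hs' w' hw'), by simp⟩⟩

/-- Quotient of a product by one letter. -/
theorem GSys.step_prd {Δ : Type} (G : GSys Δ) (γ : List G.Γ) (a : Δ) (w : List Δ)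
    (h : a :: w ∈ Prd G.Lang γ) :
    ∃ γ' : List G.Γ, γ'.length ≤ γ.length + G.m ∧ w ∈ Prd G.Lang γ' ∧
      ∀ w' ∈ Prd G.Lang γ', a :: w' ∈ Prd G.Lang γ := by
  induction γ with
  | nil => simp at h
  | cons B γ ih =>
    obtain ⟨u, v, hu, hv, huv⟩ := h
    cases u with
    | nil =>
      simp only [List.nil_append] at huv
      subst huv
      obtain ⟨γ', hl, hm, hs⟩ := ih hv
      exact ⟨γ', by simp; omega, hm, fun w' hw' => ⟨[], _, hu, hs w' hw', rfl⟩⟩
    | cons b u =>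
      simp only [List.cons_append, List.cons.injEq] at huv
      obtain ⟨rfl, rfl⟩ := huv
      obtain ⟨γ', hl, hm, hs⟩ := G.step B a u hu
      refine ⟨γ' ++ γ, by simp; omega, mem_prd_append.2 ⟨u, v, hm, hv, rfl⟩, ?_⟩
      intro w' hw'
      obtain ⟨u', v', hu', hv', rfl⟩ := mem_prd_append.1 hw'
      exact ⟨a :: u', v', hs u' hu', hv', rfl⟩

/-- Quotient of a product by a word. -/
theorem GSys.step_word {Δ : Type} (G : GSys Δ) (z : List Δ) (γ : List G.Γ) (w : List Δ)
    (h : z ++ w ∈ Prd G.Lang γ) :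
    ∃ γ' : List G.Γ, γ'.length ≤ γ.length + z.length * G.m ∧ w ∈ Prd G.Lang γ' ∧
      ∀ w' ∈ Prd G.Lang γ', z ++ w' ∈ Prd G.Lang γ := by
  induction z generalizing γ with
  | nil => exact ⟨γ, by simp, h, fun w' hw' => hw'⟩
  | cons a z ih =>
    obtain ⟨γ₁, hl, hm, hs⟩ := G.step_prd γ a (z ++ w) h
    obtain ⟨γ₂, hl2, hm2, hs2⟩ := ih γ₁ hm
    refine ⟨γ₂, ?_, hm2, fun w' hw' => hs _ (hs2 w' hw')⟩
    simp only [List.length_cons]
    nlinarith

theorem flatMap_split {Δ' Δ : Type} (g : Δ' → List Δ) (w : List Δ') (u v : List Δ)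
    (h : w.flatMap g = u ++ v) :
    v = [] ∨ ∃ w₁ b w₂ s t, w = w₁ ++ b :: w₂ ∧ g b = s ++ t ∧ u = w₁.flatMap g ++ s ∧
      v = t ++ w₂.flatMap g := by
  induction w generalizing u with
  | nil =>
    left
    simp only [List.flatMap_nil, List.nil_eq_append_iff] at h
    exact h.2
  | cons b w ih =>
    rw [List.flatMap_cons, List.append_eq_append_iff] at h
    rcases h with ⟨x, h1, h2⟩ | ⟨x, h1, h2⟩
    · rcases ih x h2 with h | ⟨w₁, b', w₂, s, t, rfl, h3, rfl, rfl⟩
      · exact Or.inl h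
      · exact Or.inr ⟨b :: w₁, b', w₂, s, t, rfl, h3, by simp [h1], rfl⟩
    · exact Or.inr ⟨[], b, w, u, x, rfl, h1, by simp, h2⟩

/-- Inverse homomorphic images. -/
theorem IsGS.comap {Δ Δ' : Type} [Finite Δ] [Finite Δ'] {K : Set (List Δ)} (hK : IsGS K)
    (g : Δ' → List Δ) : IsGS {w : List Δ' | w.flatMap g ∈ K} := by
  obtain ⟨G, A₀, rfl⟩ := hK
  have := G.fin
  obtain ⟨c, hc⟩ : ∃ c, ∀ b, (g b).length ≤ c := by
    obtain ⟨c, hc⟩ := (Set.finite_range fun b => (g b).length).bddAbove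
    exact ⟨c, fun b => hc ⟨b, rfl⟩⟩
  let Γ' := Option (Δ' ⊕ (List Δ × G.Γ × List Δ))
  let Lang' : Γ' → Set (List Δ') := fun B => match B with
    | none => {w | w.flatMap g = []}
    | some (Sum.inl b) => {w | w = [b]}
    | some (Sum.inr (x, A, y)) => {w | x ++ w.flatMap g ++ y ∈ G.Lang A}
  let U : Set Γ' := {B | ∀ x A y, B = some (Sum.inr (x, A, y)) → x.length ≤ c ∧ y.length ≤ c}
  have hU : U.Finite := by
    have h1 : ({l : List Δ | l.length ≤ c} ×ˢ ((Set.univ : Set G.Γ) ×ˢ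
        {l : List Δ | l.length ≤ c})).Finite :=
      (List.finite_length_le Δ c).prod (Set.finite_univ.prod (List.finite_length_le Δ c))
    refine (((h1.image fun p => (some (Sum.inr p) : Γ')).union
      (Set.finite_range fun b : Δ' => (some (Sum.inl b) : Γ'))).insert none).subset ?_
    rintro (_ | b | ⟨x, A, y⟩) hB
    · exact Or.inl rfl
    · exact Or.inr (Or.inr ⟨b, rfl⟩)
    · obtain ⟨h2, h3⟩ := hB x A y rfl
      exact Or.inr (Or.inl ⟨(x, A, y), ⟨h2, trivial, h3⟩, rfl⟩)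
  have key : ∀ (γ : List G.Γ) (x y : List Δ) (w : List Δ'), x.length ≤ c → y.length ≤ c →
      x ++ w.flatMap g ++ y ∈ Prd G.Lang γ →
      ∃ γ' : List Γ', (∀ B ∈ γ', B ∈ U) ∧ γ'.length ≤ 2 * γ.length + 1 ∧ w ∈ Prd Lang' γ' ∧
        ∀ w' ∈ Prd Lang' γ', x ++ w'.flatMap g ++ y ∈ Prd G.Lang γ := by
    intro γ
    induction γ with
    | nil =>
      intro x y w _ _ h
      simp only [mem_prd_nil, List.append_eq_nil_iff] at h
      obtain ⟨⟨rfl, h⟩, rfl⟩ := h
      refine ⟨[none], ?_, by simp, mem_prd_single.2 h, ?_⟩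
      · intro B hB
        simp only [List.mem_singleton] at hB
        subst hB
        intro x A y h
        cases h
      · intro w' hw'
        have : w'.flatMap g = [] := (mem_prd_single (Lang := Lang')).1 hw'
        simp [this]
    | cons A γ ih =>
      rintro x y w hx hy ⟨u, v, hu, hv, huv⟩
      rw [List.append_assoc, List.append_eq_append_iff] at huv
      rcases huv with ⟨x₂, h1, h2⟩ | ⟨x₂, h1, h2⟩
      · -- `u = x ++ x₂`, the rest is cut later
        rw [List.append_eq_append_iff] at h2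
        have hA : ∀ y₁ y₂, y = y₁ ++ y₂ → u = x ++ (w.flatMap g ++ y₁) → v = y₂ →
            ∃ γ' : List Γ', (∀ B ∈ γ', B ∈ U) ∧ γ'.length ≤ 2 * (A :: γ).length + 1 ∧
              w ∈ Prd Lang' γ' ∧
              ∀ w' ∈ Prd Lang' γ', x ++ w'.flatMap g ++ y ∈ Prd G.Lang (A :: γ) := by
          rintro y₁ y₂ rfl rfl rfl
          refine ⟨[some (Sum.inr (x, A, y₁))], ?_, by simp, mem_prd_single.2 ?_, ?_⟩
          · intro B hB
            simp only [List.mem_singleton] at hB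
            subst hB
            intro x' A' y' h
            simp only [Option.some.injEq, Sum.inr.injEq, Prod.mk.injEq, Γ'] at h
            obtain ⟨rfl, rfl, rfl⟩ := h
            simp only [List.length_append] at hy
            exact ⟨hx, by omega⟩
          · show x ++ w.flatMap g ++ y₁ ∈ G.Lang A
            simpa using hu
          · intro w' hw'
            have : x ++ w'.flatMap g ++ y₁ ∈ G.Lang A := (mem_prd_single (Lang := Lang')).1 hw'
            exact ⟨_, v, this, hv, by simp⟩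
        rcases h2 with ⟨y₁, h3, h4⟩ | ⟨z, h3, h4⟩
        · exact hA y₁ v h4 (by rw [h1, h3]) rfl
        · rcases flatMap_split g w x₂ z h3 with hz | ⟨w₁, b, w₂, s, t, rfl, hb, rfl, rfl⟩
          · subst hz
            exact hA [] y rfl (by rw [h1, h3]; simp) (by simpa using h4)
          · have hs : s.length ≤ c ∧ t.length ≤ c := by
              have := hc b
              rw [hb, List.length_append] at this
              omega
            obtain ⟨γ', hU', hl, hm, hsound⟩ := ih t y w₂ hs.2 hy (h4 ▸ hv)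
            refine ⟨some (Sum.inr (x, A, s)) :: some (Sum.inl b) :: γ', ?_, by simp; omega,
              ⟨w₁, b :: w₂, ?_, ⟨[b], w₂, rfl, hm, rfl⟩, rfl⟩, ?_⟩
            · intro B hB
              simp only [List.mem_cons] at hB
              rcases hB with rfl | rfl | hB
              · intro x' A' y' h
                simp only [Option.some.injEq, Sum.inr.injEq, Prod.mk.injEq, Γ'] at h
                obtain ⟨rfl, rfl, rfl⟩ := h
                exact ⟨hx, hs.1⟩
              · intro x' A' y' h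
                cases h
              · exact hU' B hB
            · show x ++ w₁.flatMap g ++ s ∈ G.Lang A
              rw [h1] at hu
              simpa using hu
            · rintro w' ⟨w₁', v', h5, ⟨b', w₂', h6, h7, rfl⟩, rfl⟩
              have h6' : b' = [b] := h6
              subst h6'
              have h5' : x ++ w₁'.flatMap g ++ s ∈ G.Lang A := h5
              refine ⟨_, _, h5', hsound w₂' h7, ?_⟩
              simp [hb]
      · subst h1
        simp only [List.length_append] at hx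
        obtain ⟨γ', hU', hl, hm, hsound⟩ := ih x₂ y w (by omega) hy (by simpa [h2] using hv)
        refine ⟨γ', hU', by simp; omega, hm, ?_⟩
        intro w' hw'
        exact ⟨u, _, hu, hsound w' hw', by simp⟩
  have hfin := isGS_of_finite_set U hU Lang' (2 * (1 + 2 * c * G.m) + 1) ?_
    (some (Sum.inr ([], A₀, []))) ?_
  · simpa [Lang'] using hfin
  · rintro (_ | b | ⟨x, A, y⟩) hB a w hw
    · have hw' : (a :: w).flatMap g = [] := hw
      simp only [List.flatMap_cons, List.append_eq_nil_iff] at hw'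
      refine ⟨[none], by simpa using hB, by simp, mem_prd_single.2 hw'.2, ?_⟩
      intro w' h
      have h' : w'.flatMap g = [] := (mem_prd_single (Lang := Lang')).1 h
      show (a :: w').flatMap g = []
      simp [hw'.1, h']
    · have hw' : a :: w = [b] := hw
      simp only [List.cons.injEq] at hw'
      obtain ⟨rfl, rfl⟩ := hw'
      refine ⟨[], by simp, by simp, rfl, ?_⟩
      intro w' h
      rw [mem_prd_nil] at h
      subst h
      rfl
    · obtain ⟨hx, hy⟩ := hB x A y rfl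
      have hw' : x ++ (a :: w).flatMap g ++ y ∈ G.Lang A := hw
      have hw2 : (x ++ g a) ++ (w.flatMap g ++ y) ∈ Prd G.Lang [A] :=
        mem_prd_single.2 (by simpa using hw')
      obtain ⟨γ, hl, hm, hs⟩ := G.step_word _ _ _ hw2
      obtain ⟨γ', hU', hl', hm', hs'⟩ := key γ [] y w (by simp) hy (by simpa using hm)
      refine ⟨γ', hU', ?_, hm', ?_⟩
      · have h1 : (x ++ g a).length ≤ 2 * c := by
          have := hc a
          simp only [List.length_append]; omega
        have h2 : (x ++ g a).length * G.m ≤ 2 * c * G.m := Nat.mul_le_mul_right _ h1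
        simp only [List.length_singleton] at hl
        omega
      · intro w' h
        have h1 := hs _ (by simpa using hs' w' h)
        show x ++ (a :: w').flatMap g ++ y ∈ G.Lang A
        simpa using mem_prd_single.1 h1
  · intro x A y h
    simp only [Option.some.injEq, Sum.inr.injEq, Prod.mk.injEq, Γ'] at h
    obtain ⟨rfl, -, rfl⟩ := h
    simp

end Pool.Agent.Lib.MP_a569f2_lc
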