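import Pool.Agent.Lib.MP_a569f2_lc.Pump

/-! The language `a₀ᵏ ⋯ aₘ₋₁ᵏ` needs about `m / 2` phases. -/

namespace Pool.Agent.Lib.MP_a569f2_lc

def powWord (m k : ℕ) : List (Fin m) := (List.ofFn fun i : Fin m => List.replicate k i).flatten

def powLang (m : ℕ) : Language (Fin m) := {w | ∃ k, w = powWord m (k + 1)}

theorem IsGS.inter_sorted {Δ X : Type} [Finite X] {K : Set (List Δ)} (hK : IsGS K)
    (f : Δ → List X) (r : X → X → Prop) :
    IsGS {w | w ∈ K ∧ (w.flatMap f).Pairwise r} := by
  let E : Set X → Δ → Set X → Prop := fun s a t =>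
    t = s ∪ {x | x ∈ f a} ∧ (f a).Pairwise r ∧ ∀ x ∈ s, ∀ y ∈ f a, r x y
  have key : ∀ (w : List Δ) (s : Set X), (∃ t, Path E s w t) ↔
      ((w.flatMap f).Pairwise r ∧ ∀ x ∈ s, ∀ y ∈ w.flatMap f, r x y) := by
    intro w
    induction w with
    | nil => intro s; simp [path_nil_iff]
    | cons a w ih =>
      intro s
      rw [List.flatMap_cons, List.pairwise_append]
      constructor
      · rintro ⟨t, ht⟩
        obtain ⟨_, ⟨rfl, h1, h2⟩, h3⟩ := path_cons_iff.1 ht
        obtain ⟨h4, h5⟩ := (ih _).1 ⟨t, h3⟩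
        refine ⟨⟨h1, h4, fun x hx y hy => h5 x (Or.inr hx) y hy⟩, fun x hx y hy => ?_⟩
        rcases List.mem_append.1 hy with hy | hy
        · exact h2 x hx y hy
        · exact h5 x (Or.inl hx) y hy
      · rintro ⟨⟨h1, h2, h3⟩, h4⟩
        obtain ⟨t, ht⟩ := (ih (s ∪ {x | x ∈ f a})).2 ⟨h2, by
          rintro x (hx | hx) y hy
          · exact h4 x hx y (List.mem_append_right _ hy)
          · exact h3 x hx y hy⟩
        exact ⟨t, Path.cons ⟨rfl, h1, fun x hx y hy => h4 x hx y (List.mem_append_left _ hy)⟩ ht⟩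
  have := hK.inter_path E {∅} Set.univ
  convert this using 4 with w
  simp only [Set.mem_singleton_iff, Set.mem_univ, true_and, exists_eq_left, key]
  simp

theorem pairwise_blocks {Δ : Type} {m : ℕ} (c : Δ → Fin m) (u : Fin m → List Δ)
    (h : ∀ j, ∀ a ∈ u j, c a = j) : (List.ofFn u).flatten.Pairwise fun a b => c a ≤ c b := by
  rw [List.pairwise_flatten]
  refine ⟨?_, ?_⟩
  · intro l hl
    obtain ⟨j, rfl⟩ := List.mem_ofFn.1 hl
    refine List.pairwise_of_forall_mem_list fun a ha b hb => ?_
    rw [h j a ha, h j b hb]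
  · rw [List.pairwise_ofFn]
    intro i j hij a ha b hb
    rw [h i a ha, h j b hb]
    exact hij.le

theorem flatten_ofFn_cons {α : Type} {m : ℕ} (j : Fin m) (a : α) (v v' : Fin m → List α)
    (h1 : ∀ i, i < j → v i = []) (h2 : ∀ i, i ≠ j → v' i = v i) (h3 : v' j = a :: v j) :
    (List.ofFn v').flatten = a :: (List.ofFn v).flatten := by
  induction m with
  | zero => exact j.elim0
  | succ m ih =>
    simp only [List.ofFn_succ, List.flatten_cons]
    revert h1 h2 h3
    refine Fin.cases ?_ (fun j => ?_) j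
    · intro _ h2 h3
      have : (fun i : Fin m => v' i.succ) = fun i => v i.succ :=
        funext fun i => h2 _ (Fin.succ_ne_zero i)
      rw [h3, this]; rfl
    · intro h1 h2 h3
      rw [h2 0 (Fin.succ_ne_zero j).symm, h1 0 (Fin.succ_pos j), List.nil_append, List.nil_append]
      exact ih j _ _ (fun i hi => h1 _ (Fin.succ_lt_succ_iff.2 hi))
        (fun i hi => h2 _ fun e => hi (Fin.succ_injective _ e)) h3

theorem eq_blocks_of_sorted {Δ : Type} {m : ℕ} (c : Δ → Fin m) (w : List Δ)
    (h : w.Pairwise fun a b => c a ≤ c b) :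
    w = (List.ofFn fun j => w.filter fun a => decide (c a = j)).flatten := by
  induction w with
  | nil => simp
  | cons a w ih =>
    rw [List.pairwise_cons] at h
    rw [flatten_ofFn_cons (c a) a (fun j => w.filter fun a => decide (c a = j)), ← ih h.2]
    · intro i hi
      rw [List.filter_eq_nil_iff]
      intro b hb e
      have := h.1 b hb
      rw [of_decide_eq_true e] at this
      exact absurd hi (not_lt.2 this)
    · intro i hi
      rw [List.filter_cons_of_neg]
      simpa using hi.symm
    · rw [List.filter_cons_of_pos]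
      simp

/-- Additive weights. -/
def W {Δ : Type} (f : Δ → ℕ) : Multiset Δ →+ ℕ where
  toFun M := (M.map f).sum
  map_zero' := by simp
  map_add' := by simp

theorem W_coe {Δ : Type} (f : Δ → ℕ) (w : List Δ) : W f (w : Multiset Δ) = (w.map f).sum := by
  simp [W]

theorem W_filter {Δ : Type} (p : Δ → Prop) [DecidablePred p] (w : List Δ) :
    W (fun a => if p a then 1 else 0) (w : Multiset Δ) = (w.filter fun a => decide (p a)).length := by
  rw [W_coe]
  induction w with
  | nil => rfl
  | cons a w ih => by_cases h : p a <;> simp [h, ih, add_comm]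

theorem W_count {Δ X : Type} [DecidableEq X] (h : Δ → List X) (x : X) (w : List Δ) :
    W (fun a => (h a).count x) (w : Multiset Δ) = (w.flatMap h).count x := by
  rw [W_coe]
  induction w with
  | nil => rfl
  | cons a w ih => simp [ih]

theorem W_length {Δ X : Type} (h : Δ → List X) (w : List Δ) :
    W (fun a => (h a).length) (w : Multiset Δ) = (w.flatMap h).length := by
  rw [W_coe, List.length_flatMap]

theorem count_powWord (m k : ℕ) (x : Fin m) : (powWord m k).count x = k := by
  have := filter_blocks (fun i : Fin m => i) (fun i => List.replicate k i)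
    (fun j a ha => List.eq_of_mem_replicate ha) x
  rw [List.count_eq_length_filter]
  have e : (fun y : Fin m => y == x) = fun a => decide (a = x) := by
    funext y; rfl
  rw [powWord, e, this, List.length_replicate]

theorem length_powWord (m k : ℕ) : (powWord m k).length = m * k := by
  simp [powWord, List.length_flatten, List.map_ofFn, List.sum_ofFn]

theorem sum_map_eq_sum_count {ι : Type} [DecidableEq ι] (D : Multiset ι) (g : ι → ℕ) :
    (((D.map g).sum : ℕ) : ℚ) = ∑ p ∈ D.toFinset, (D.count p : ℚ) * g p := by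
  rw [Finset.sum_multiset_map_count]
  simp

theorem not_fspda_powLang {n m : ℕ} (hm : 2 * n + 3 ≤ m) : ¬ FSPDA n (powLang m) := by
  classical
  intro hL
  obtain ⟨Δ, _, K, c, h, hK, hLK⟩ := fspda_iff_formC.1 hL
  have hK₁ := ((isGS_of_isContextFree hK).inter_sorted (fun a => [c a]) (· ≤ ·)).inter_sorted h
    (· ≤ ·)
  obtain ⟨B, s₀, hB⟩ := hK₁.exists_bsys
  have := B.fin
  have hmemB : ∀ w, w ∈ B.Lang s₀ ↔ (w ∈ K ∧ w.Pairwise fun a b => c a ≤ c b) ∧
      (w.flatMap h).Pairwise (· ≤ ·) := by
    intro w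
    rw [hB]
    simp only [Set.mem_ofPred_eq, ← List.map_eq_flatMap, List.pairwise_map]
    rfl
  set N := 2 * 2 ^ Nat.card B.S with hN
  let tm : Fin (n + 1) → Multiset Δ →+ ℕ := fun j => W fun a => if c a = j then 1 else 0
  let cnt : Fin m → Multiset Δ →+ ℕ := fun x => W fun a => (h a).count x
  let hl : Multiset Δ →+ ℕ := W fun a => (h a).length
  have hseq : ∀ k : ℕ, ∃ (w : List Δ) (t : ℕ) (A : Set B.S) (w₀ : List Δ)
      (ps : Multiset (B.S × List Δ × List Δ)), B.Gen N s₀ A w ∧ w.flatMap h = powWord m (k + 1) ∧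
      (∀ j, tm j w = t + 1) ∧ w₀.length ≤ N ∧
      (w : Multiset Δ) = (w₀ : Multiset Δ) + (ps.map BSys.pm).sum ∧ ∀ p ∈ ps, BSys.Adm N A p := by
    intro k
    have hk : powWord m (k + 1) ∈ powLang m := ⟨k, rfl⟩
    rw [hLK] at hk
    obtain ⟨_, ⟨hw, t, u, hu, rfl⟩, e⟩ := hk
    have hmem : (List.ofFn u).flatten ∈ B.Lang s₀ := by
      refine (hmemB _).2 ⟨⟨hw, pairwise_blocks c u fun j => (hu j).2⟩, ?_⟩
      rw [← e]
      exact pairwise_blocks (fun i : Fin m => i) _ fun j a ha => List.eq_of_mem_replicate ha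
    obtain ⟨A, hA⟩ := BSys.exists_gen N _ _ (Nat.lt_succ_self _) s₀ hmem
    obtain ⟨A₀, w₀, ps, -, e2, e3, e4⟩ := hA.decomp le_rfl
    refine ⟨_, t, A, w₀, ps, hA, e.symm, fun j => ?_, ?_, e3, e4⟩
    · simp only [tm]
      rw [W_filter, filter_blocks c u (fun j => (hu j).2), (hu j).1]
    · have := e2.length_le'
      omega
  choose w t A w₀ ps hgen hpow htm hw₀ hdec hadm using hseq
  let P := {p : B.S × List Δ × List Δ // (p.2.1 ++ p.2.2).length ≤ N}
  have hP : Finite P := by
    refine Set.Finite.to_subtype ((Set.finite_univ.prod ((List.finite_length_le Δ N).prod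
      (List.finite_length_le Δ N))).subset ?_)
    rintro ⟨s, x, y⟩ hp
    have hp' : (x ++ y).length ≤ N := hp
    simp only [List.length_append] at hp'
    exact ⟨trivial, show x.length ≤ N by omega, show y.length ≤ N by omega⟩
  have hW : Finite {l : List Δ // l.length ≤ N} := (List.finite_length_le Δ N).to_subtype
  let F : ℕ → (P ⊕ {l : List Δ // l.length ≤ N}) → ℕ := fun k =>
    Sum.elim (fun p => (ps k).count p.1) (fun l => if l.1 = w₀ k then 1 else 0)
  obtain ⟨i, j, hij, hF⟩ := wellQuasiOrdered_le F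
  have hw0 : w₀ i = w₀ j := by
    have := hF (Sum.inr ⟨w₀ i, hw₀ i⟩)
    simp only [F, Sum.elim_inr, if_true] at this
    by_contra e
    simp [e] at this
  have hle : ps i ≤ ps j := by
    rw [Multiset.le_iff_count]
    intro p
    by_cases hp : p ∈ ps i
    · exact hF (Sum.inl ⟨p, (hadm i p hp).2.2⟩)
    · simp [Multiset.count_eq_zero_of_notMem hp]
  obtain ⟨D, hD⟩ := Multiset.le_iff_exists_add.1 hle
  have hdiff : ∀ f : Multiset Δ →+ ℕ, f (w j) = f (w i) + (D.map fun p => f (BSys.pm p)).sum := by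
    intro f
    rw [hdec j, hdec i, hD, hw0, Multiset.map_add, Multiset.sum_add, ← add_assoc, map_add f _
      (D.map BSys.pm).sum, map_multiset_sum, Multiset.map_map]
    rfl
  obtain ⟨S', d', hS', hcard, hd', hv', hl'⟩ := cone_small_support (n := n)
    (fun p r => (tm r.castSucc (BSys.pm p) : ℚ) - tm r.succ (BSys.pm p))
    (fun p => (hl (BSys.pm p) : ℚ)) _ D.toFinset (fun p => (D.count p : ℚ)) le_rfl
    (fun _ _ => Nat.cast_nonneg _) (by
      funext r
      have e1 := hdiff (tm r.castSucc)
      have e2 := hdiff (tm r.succ)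
      rw [htm, htm] at e1 e2
      have e3 : (D.map fun p => tm r.castSucc (BSys.pm p)).sum =
          (D.map fun p => tm r.succ (BSys.pm p)).sum := by omega
      have e4 := congrArg (Nat.cast : ℕ → ℚ) e3
      rw [sum_map_eq_sum_count, sum_map_eq_sum_count] at e4
      simp only [Finset.sum_apply, Pi.smul_apply, smul_eq_mul, mul_sub, Finset.sum_sub_distrib,
        Pi.zero_apply, e4, sub_self]) (by
      have e1 := hdiff hl
      simp only [hl] at e1
      rw [W_length, W_length, hpow, hpow, length_powWord, length_powWord] at e1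
      rw [← sum_map_eq_sum_count]
      have : m * (i + 1) < m * (j + 1) := Nat.mul_lt_mul_of_pos_left (by omega) (by omega)
      exact_mod_cast (by omega : 0 < (D.map fun p => W (fun a => (h a).length) (BSys.pm p)).sum))
  -- clear denominators
  obtain ⟨q, hq, d'', hd''⟩ : ∃ q : ℕ, 0 < q ∧ ∃ d'' : B.S × List Δ × List Δ → ℕ,
      ∀ p ∈ S', (d'' p : ℚ) = q * d' p := by
    refine ⟨∏ p ∈ S', (d' p).den, Finset.prod_pos fun p _ => (d' p).den_pos, ?_⟩
    have : ∀ p, ∃ e : ℕ, p ∈ S' → (e : ℚ) = ((∏ p ∈ S', (d' p).den : ℕ) : ℚ) * d' p := by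
      intro p
      by_cases hp : p ∈ S'
      · obtain ⟨r, hr⟩ := Finset.dvd_prod_of_mem (fun p => (d' p).den) hp
        refine ⟨r * (d' p).num.toNat, fun _ => ?_⟩
        have h0 : 0 ≤ (d' p).num := Rat.num_nonneg.2 (hd' p hp)
        have h1 : (((d' p).num.toNat : ℕ) : ℚ) = ((d' p).num : ℚ) := by
          exact_mod_cast congrArg (Int.cast : ℤ → ℚ) (Int.toNat_of_nonneg h0)
        rw [hr]
        push_cast
        rw [h1, ← Rat.mul_den_eq_num]
        ring
      · exact ⟨0, fun h => absurd h hp⟩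
    choose e he using this
    exact ⟨e, he⟩
  let D' : Multiset (B.S × List Δ × List Δ) := ∑ p ∈ S', Multiset.replicate (d'' p) p
  have hD'mem : ∀ p ∈ D', p ∈ S' := by
    intro p hp
    obtain ⟨p', hp', e⟩ := Multiset.mem_sum.1 hp
    rwa [Multiset.eq_of_mem_replicate e]
  have hSadm : ∀ p ∈ S', BSys.Adm N (A j) p := fun p hp =>
    hadm j p (hD ▸ Multiset.mem_add.2 (Or.inr (Multiset.mem_toFinset.1 (hS' hp))))
  obtain ⟨w', hw', hw'e⟩ := (hgen j).insert_many D' fun p hp => hSadm p (hD'mem p hp)
  have hdiff' : ∀ f : Multiset Δ →+ ℕ,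
      f w' = f (w j) + ∑ p ∈ S', d'' p * f (BSys.pm p) := by
    intro f
    rw [hw'e, map_add, map_multiset_sum, Multiset.map_map]
    congr 1
    simp only [D']
    rw [← Multiset.coe_mapAddMonoidHom, map_sum, ← Multiset.coe_sumAddMonoidHom, map_sum]
    simp
  have hq' : ∀ g : B.S × List Δ × List Δ → ℕ,
      ((∑ p ∈ S', d'' p * g p : ℕ) : ℚ) = q * ∑ p ∈ S', d' p * g p := by
    intro g
    push_cast
    rw [Finset.mul_sum]
    exact Finset.sum_congr rfl fun p hp => by rw [hd'' p hp, mul_assoc]
  have hbal : ∀ r : Fin n, tm r.castSucc w' = tm r.succ w' := by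
    intro r
    rw [hdiff', hdiff', htm, htm]
    congr 1
    have e := congrFun hv' r
    simp only [Finset.sum_apply, Pi.smul_apply, smul_eq_mul, mul_sub, Finset.sum_sub_distrib,
      Pi.zero_apply, sub_eq_zero] at e
    have : ((∑ p ∈ S', d'' p * tm r.castSucc (BSys.pm p) : ℕ) : ℚ) =
        ((∑ p ∈ S', d'' p * tm r.succ (BSys.pm p) : ℕ) : ℚ) := by rw [hq', hq', e]
    exact_mod_cast this
  have hbal' : ∀ r : Fin (n + 1), tm r w' = tm 0 w' := by
    intro r
    induction r using Fin.induction with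
    | zero => rfl
    | succ r ih => rw [← hbal, ih]
  obtain ⟨⟨hK', hsort⟩, -⟩ := (hmemB w').1 hw'.mem
  have hE : w' ∈ EqBlocks c := by
    refine ⟨tm 0 w' - 1, _, fun r => ⟨?_, ?_⟩, eq_blocks_of_sorted c w' hsort⟩
    · have e1 := hbal' r
      have e2 := hdiff' (tm 0)
      rw [htm] at e2
      simp only [tm] at e1 e2 ⊢
      rw [W_filter] at e1
      omega
    · intro a ha
      simpa using (List.mem_filter.1 ha).2
  have hw'L : w'.flatMap h ∈ powLang m := by
    rw [hLK]
    exact ⟨w', ⟨hK', hE⟩, rfl⟩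
  obtain ⟨k', hk'⟩ := hw'L
  -- each pump side has a one-letter image
  have hone : ∀ p ∈ S', (p.2.1.flatMap h).toFinset.card ≤ 1 ∧
      (p.2.2.flatMap h).toFinset.card ≤ 1 := by
    intro p hp
    obtain ⟨h1, h2, -⟩ := hSadm p hp
    obtain ⟨α, β, u₀, e1, e2⟩ := (hgen j).context p.1 h1
    have e3 := ((hmemB _).1 (e2 _ (h2 _ (h2 _ e1)))).2
    have aux : ∀ l : List (Fin m), (l ++ l).Pairwise (· ≤ ·) → l.toFinset.card ≤ 1 := by
      intro l hl
      rw [List.pairwise_append] at hl
      refine Finset.card_le_one.2 fun a ha b hb => ?_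
      rw [List.mem_toFinset] at ha hb
      exact le_antisymm (hl.2.2 a ha b hb) (hl.2.2 b hb a ha)
    simp only [List.flatMap_append] at e3
    refine ⟨aux _ (e3.sublist ?_), aux _ (e3.sublist ?_)⟩
    · refine List.Sublist.trans ?_ (List.sublist_append_left _ _)
      refine List.Sublist.trans ?_ (List.sublist_append_right _ _)
      refine List.Sublist.trans ?_ (List.sublist_append_left _ _)
      refine List.Sublist.append_left ?_ _
      exact (List.sublist_append_left _ _).trans (List.sublist_append_left _ _)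
    · refine List.Sublist.trans ?_ (List.sublist_append_left _ _)
      refine List.Sublist.trans ?_ (List.sublist_append_right _ _)
      refine List.Sublist.append_right ?_ _
      exact (List.sublist_append_right _ _).trans (List.sublist_append_right _ _)
  obtain ⟨x, hx⟩ : ∃ x : Fin m, x ∉ S'.biUnion fun p =>
      (p.2.1.flatMap h).toFinset ∪ (p.2.2.flatMap h).toFinset := by
    by_contra hcon
    push Not at hcon
    have e1 : (S'.biUnion fun p => (p.2.1.flatMap h).toFinset ∪ (p.2.2.flatMap h).toFinset).card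
        ≤ S'.card * 2 := by
      refine Finset.card_biUnion_le_card_mul _ _ _ fun p hp => ?_
      have := hone p hp
      have := Finset.card_union_le (p.2.1.flatMap h).toFinset (p.2.2.flatMap h).toFinset
      omega
    rw [Finset.eq_univ_iff_forall.2 hcon, Finset.card_univ, Fintype.card_fin] at e1
    omega
  have hc0 : ∑ p ∈ S', d'' p * cnt x (BSys.pm p) = 0 := by
    refine Finset.sum_eq_zero fun p hp => ?_
    have : cnt x (BSys.pm p) = 0 := by
      simp only [cnt, BSys.pm]
      rw [W_count, List.count_eq_zero]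
      intro hmem
      apply hx
      rw [List.flatMap_append, List.mem_append] at hmem
      exact Finset.mem_biUnion.2 ⟨p, hp, by simpa using hmem⟩
    simp [this]
  have e1 := hdiff' (cnt x)
  rw [hc0] at e1
  simp only [cnt] at e1
  rw [W_count, W_count, hk', hpow, count_powWord, count_powWord] at e1
  have e2 := hdiff' hl
  have e3 : 0 < ∑ p ∈ S', d'' p * hl (BSys.pm p) := by
    have : (0 : ℚ) < ((∑ p ∈ S', d'' p * hl (BSys.pm p) : ℕ) : ℚ) := by
      rw [hq']
      exact mul_pos (by exact_mod_cast hq) hl'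
    exact_mod_cast this
  have e4 : hl w' = hl (w j) := by
    simp only [hl]
    rw [W_length, W_length, hk', hpow, e1]
  omega

end Pool.Agent.Lib.MP_a569f2_lc
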