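import Pool.Agent.Lib.MP_a569f2_lc.PDA

/-! The three implications of the characterisation. -/

namespace Pool.Agent.Lib.MP_a569f2_lc

/-- Homomorphic images of intersections of a context-free and a parallel right-linear language. -/
def FormB {T : Type} (n : ℕ) (L : Language T) : Prop :=
  ∃ (Δ : Type) (_ : Finite Δ) (K P : Language Δ) (h : Δ → List T),
    K.IsContextFree ∧ PRL (n + 1) P ∧ L = homImage h (K ⊓ P)

/-- Homomorphic images of intersections of a context-free language with equal coloured blocks. -/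
def FormC {T : Type} (n : ℕ) (L : Language T) : Prop :=
  ∃ (Δ : Type) (_ : Finite Δ) (K : Language Δ) (c : Δ → Fin (n + 1)) (h : Δ → List T),
    K.IsContextFree ∧ L = homImage h (K ⊓ EqBlocks c)

theorem exists_lift {α : Type} {S : Set α} (l : List α) (h : ∀ a ∈ l, a ∈ S) :
    ∃ l' : List S, l'.map Subtype.val = l :=
  ⟨l.pmap Subtype.mk h, by simp [List.map_pmap]⟩

theorem mem_flatten_ofFn {α : Type} {m : ℕ} (b : Fin m → List α) (j : Fin m) {a : α}
    (h : a ∈ b j) : a ∈ (List.ofFn b).flatten :=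
  List.mem_flatten.2 ⟨b j, List.mem_ofFn.2 ⟨j, rfl⟩, h⟩

theorem map_flatten_ofFn {α β : Type} {m : ℕ} (f : α → β) (b : Fin m → List α) :
    (List.ofFn b).flatten.map f = (List.ofFn fun j => (b j).map f).flatten := by
  rw [List.map_flatten, List.map_ofFn]
  rfl

theorem flatMap_flatten_ofFn {α β : Type} {m : ℕ} (f : α → List β) (b : Fin m → List α) :
    (List.ofFn b).flatten.flatMap f = (List.ofFn fun j => (b j).flatMap f).flatten := by
  induction m with
  | zero => simp
  | succ m ih => simp [List.ofFn_succ, ih]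

section AB
variable {T : Type} (n : ℕ) (M : SPDA T)

/-- The grammar generating label sequences of the required block shape. -/
def labelG : PRLG (n + 1) M.δ where
  N := Bool × Option M.δ
  finN := by have := M.finδ.to_subtype; infer_instance
  start := {X | ∃ ρ : Fin (n + 1) → M.δ,
    (∀ j : Fin n, ((ρ j.castSucc).1, (ρ j.succ).1) ∈ M.R) ∧
    X = fun j => (decide (j = 0), some (ρ j))}
  rules := {p | ∃ (f : Bool) (o : Option M.δ) (r : M.δ) (Y : Option (Bool × Option M.δ)),
    p = ((f, o), [r], Y) ∧ (∀ r₀, o = some r₀ → r₀ = r) ∧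
    ((Y = some (f, none) ∧ (f = true → r.1.dst ≠ M.qt)) ∨
      (Y = none ∧ (f = true → r.1.dst = M.qt)))}
  finRules := by
    have := M.finδ.to_subtype
    refine (Set.finite_range fun p : (Bool × Option M.δ) × M.δ × Option (Bool × Option M.δ) =>
      (p.1, [p.2.1], p.2.2)).subset ?_
    rintro _ ⟨f, o, r, Y, rfl, -⟩
    exact ⟨((f, o), r, Y), rfl⟩

theorem labelG_block (ρs : List ((labelG n M).N × List M.δ × Option (labelG n M).N)) :
    ∀ (f : Bool) (o : Option M.δ), Path (RE (labelG n M)) (some (f, o)) ρs none →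
      (ρs.flatMap (·.2.1)).length = ρs.length ∧
      (∃ ini las, ρs.flatMap (·.2.1) = ini ++ [las] ∧
        (f = true → las.1.dst = M.qt ∧ ∀ r ∈ ini, r.1.dst ≠ M.qt)) ∧
      ∀ r₀, o = some r₀ → ∃ t, ρs.flatMap (·.2.1) = r₀ :: t := by
  induction ρs with
  | nil => intro f o h; cases path_nil_iff.1 h
  | cons ρ ρs ih =>
    intro f o h
    obtain ⟨s', ⟨⟨f', o', r, Y, rfl, h1, h2⟩, h3, rfl⟩, h4⟩ := path_cons_iff.1 h
    simp only [Option.some.injEq] at h3
    obtain ⟨rfl, rfl⟩ := Prod.mk.inj h3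
    rcases h2 with ⟨rfl, h2⟩ | ⟨rfl, h2⟩
    · obtain ⟨e1, ⟨ini, las, e2, e3⟩, -⟩ := ih f none h4
      refine ⟨by simpa using e1, ⟨r :: ini, las, by simp [e2], fun hf => ⟨(e3 hf).1, ?_⟩⟩, ?_⟩
      · intro r' hr'
        rcases List.mem_cons.1 hr' with rfl | hr'
        · exact h2 hf
        · exact (e3 hf).2 r' hr'
      · intro r₀ hr₀
        exact ⟨ρs.flatMap (·.2.1), by simp [h1 r₀ hr₀]⟩
    · cases ρs with
      | nil =>
        refine ⟨by simp, ⟨[], r, by simp, fun hf => ⟨h2 hf, by simp⟩⟩, ?_⟩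
        intro r₀ hr₀
        exact ⟨[], by simp [h1 r₀ hr₀]⟩
      | cons ρ' ρs =>
        obtain ⟨s', ⟨-, h5, -⟩, -⟩ := path_cons_iff.1 h4
        cases h5

theorem labelG_block' (f : Bool) (las : M.δ) (ini : List M.δ) :
    ∀ (o : Option M.δ), (f = true → las.1.dst = M.qt ∧ ∀ r ∈ ini, r.1.dst ≠ M.qt) →
      (∀ r₀, o = some r₀ → ∃ t, ini ++ [las] = r₀ :: t) →
      ∃ ρs : List ((labelG n M).N × List M.δ × Option (labelG n M).N),
        ρs.length = ini.length + 1 ∧ Path (RE (labelG n M)) (some (f, o)) ρs none ∧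
        ρs.flatMap (·.2.1) = ini ++ [las] := by
  induction ini with
  | nil =>
    intro o h1 h2
    refine ⟨[((f, o), [las], none)], rfl, Path.cons ⟨⟨f, o, las, none, rfl, ?_,
      Or.inr ⟨rfl, fun hf => (h1 hf).1⟩⟩, rfl, rfl⟩ (Path.nil _), by simp⟩
    intro r₀ hr₀
    obtain ⟨t, ht⟩ := h2 r₀ hr₀
    simp only [List.nil_append, List.cons.injEq] at ht
    exact ht.1.symm
  | cons r ini ih =>
    intro o h1 h2
    obtain ⟨ρs, e1, e2, e3⟩ := ih none
      (fun hf => ⟨(h1 hf).1, fun r' hr' => (h1 hf).2 r' (by simp [hr'])⟩) (by simp)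
    refine ⟨((f, o), [r], some (f, none)) :: ρs, by simp [e1], Path.cons ⟨⟨f, o, r, _, rfl, ?_,
      Or.inl ⟨rfl, fun hf => (h1 hf).2 r (by simp)⟩⟩, rfl, rfl⟩ e2, by simp [e3]⟩
    intro r₀ hr₀
    obtain ⟨t, ht⟩ := h2 r₀ hr₀
    simp only [List.cons_append, List.cons.injEq] at ht
    exact ht.1.symm

theorem formB_firstLang : FormB n (firstLang n M) := by
  have := M.finδ.to_subtype
  have := M.finQ
  have := M.finΓ
  let K : Language M.δ := {w | w ∈ {u | SP (fun a : M.δ => a.1.pop)
    (fun a : M.δ => a.1.push.reverse) [M.Z0] u} ∧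
      ∃ s ∈ ({M.q0} : Set M.Q), ∃ t ∈ M.F, Path (fun s (a : M.δ) t => Ctl s a.1 t) s w t}
  have hK : K.IsContextFree := ((isGS_sp M.Z0).inter_path _ _ _).isContextFree
  have hKm : ∀ (u : List M.δ), u ∈ K ↔ ∃ f ∈ M.F, Run M ([M.Z0], M.q0,
      u.flatMap fun a => a.1.read) (u.map Subtype.val) ([], f, []) := by
    intro u
    constructor
    · rintro ⟨h1, s, rfl, f, hf, h2⟩
      refine ⟨f, hf, (run_iff M _ _ _ _ _).2 ⟨?_, (sp_map Subtype.val).2 h1,
        (path_map Subtype.val).2 h2, by rw [List.flatMap_map]⟩⟩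
      intro r hr
      obtain ⟨a, -, rfl⟩ := List.mem_map.1 hr
      exact a.2
    · rintro ⟨f, hf, h⟩
      obtain ⟨-, h1, h2, -⟩ := (run_iff M _ _ _ _ _).1 h
      exact ⟨(sp_map Subtype.val).1 h1, M.q0, rfl, f, hf, (path_map Subtype.val).1 h2⟩
  refine ⟨M.δ, inferInstance, K, (labelG n M).language, fun a => a.1.read, hK, ⟨_, rfl⟩, ?_⟩
  ext w
  rw [firstLang_iff]
  constructor
  · rintro ⟨f, hf, k, b, h1, h2, ⟨ini, las, h3, h4, h5⟩, h6⟩
    obtain ⟨hδ, -, -, hw⟩ := (run_iff M _ _ _ _ _).1 h1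
    choose b' hb' using fun j => exists_lift (S := M.δ) (b j)
      (fun a ha => hδ a (mem_flatten_ofFn b j ha))
    have hb : (List.ofFn b').flatten.map Subtype.val = (List.ofFn b).flatten := by
      rw [map_flatten_ofFn]; simp only [hb']
    have hw' : w = (List.ofFn b').flatten.flatMap fun a => a.1.read := by
      rw [hw, ← hb, List.flatMap_map]
    refine ⟨(List.ofFn b').flatten, ⟨(hKm _).2 ⟨f, hf, ?_⟩, ?_⟩, hw'⟩
    · rw [hb, ← hw']; exact h1
    · have hlen : ∀ j, (b' j).length = k + 1 := fun j => by rw [← h2 j, ← hb' j]; simp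
      choose ρ t hρ using fun j => List.exists_cons_of_length_eq_add_one (hlen j)
      have hblk : ∀ j : Fin (n + 1), ∃ ρs : List ((labelG n M).N × List M.δ ×
          Option (labelG n M).N), ρs.length = k + 1 ∧
          Path (RE (labelG n M)) (some (decide (j = 0), some (ρ j))) ρs none ∧
          ρs.flatMap (·.2.1) = b' j := by
        intro j
        have hne : b' j ≠ [] := by rw [hρ j]; simp
        obtain ⟨ini', las', hil⟩ : ∃ ini' las', b' j = ini' ++ [las'] :=
          ⟨_, _, (List.dropLast_concat_getLast hne).symm⟩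
        have hl : ini'.length = k := by
          have := hlen j
          rw [hil] at this
          simpa using this
        refine (labelG_block' n M (decide (j = 0)) las' ini' (some (ρ j)) ?_ ?_).imp
          fun ρs e => ⟨by rw [e.1, hl], e.2.1, by rw [e.2.2, hil]⟩
        · intro hj
          obtain rfl : j = 0 := of_decide_eq_true hj
          have e := hb' 0
          rw [hil, h3, List.map_append] at e
          obtain ⟨e4, e5⟩ := List.append_inj' e rfl
          simp only [List.map_cons, List.map_nil, List.cons.injEq, and_true] at e5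
          refine ⟨e5 ▸ h4, fun r hr => h5 _ (e4 ▸ List.mem_map_of_mem hr)⟩
        · intro r₀ hr₀
          simp only [Option.some.injEq] at hr₀
          subst hr₀
          exact ⟨t j, by rw [← hil, hρ j]⟩
      choose ρs e1 e2 e3 using hblk
      refine (prlg_iff _ _).2 ⟨_, ⟨ρ, ?_, rfl⟩, k + 1, ρs, fun j => ⟨e1 j, e2 j⟩, ?_⟩
      · intro j
        obtain ⟨r₁, t₁, r₂, t₂, a1, a2, a3⟩ := h6 j
        rw [← hb', hρ] at a1 a2
        simp only [List.map_cons, List.cons.injEq] at a1 a2
        rw [a1.1, a2.1]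
        exact a3
      · simp only [e3]
  · rintro ⟨u, ⟨hu, hP⟩, rfl⟩
    obtain ⟨f, hf, hrun⟩ := (hKm u).1 hu
    obtain ⟨X, ⟨ρ, hρ, rfl⟩, k, ρs, hρs, rfl⟩ := (prlg_iff _ _).1 hP
    have hb := fun j => labelG_block n M (ρs j) _ _ (hρs j).2
    obtain ⟨k, rfl⟩ : ∃ k', k = k' + 1 := by
      obtain ⟨e1, ⟨ini, las, e2, -⟩, -⟩ := hb 0
      rw [e2, (hρs 0).1] at e1
      exact ⟨ini.length, by simpa using e1.symm⟩
    refine ⟨f, hf, k, fun j => ((ρs j).flatMap (·.2.1)).map Subtype.val, ?_, ?_, ?_, ?_⟩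
    · rw [← map_flatten_ofFn]; exact hrun
    · intro j
      rw [List.length_map, (hb j).1, (hρs j).1]
    · obtain ⟨-, ⟨ini, las, e2, e3⟩, -⟩ := hb 0
      refine ⟨ini.map Subtype.val, las.1, by simp [e2], (e3 (by simp)).1, ?_⟩
      intro r hr
      obtain ⟨a, ha, rfl⟩ := List.mem_map.1 hr
      exact (e3 (by simp)).2 a ha
    · intro j
      obtain ⟨t₁, e1⟩ := (hb j.castSucc).2.2 _ rfl
      obtain ⟨t₂, e2⟩ := (hb j.succ).2.2 _ rfl
      exact ⟨_, t₁.map Subtype.val, _, t₂.map Subtype.val, by simp [e1], by simp [e2], hρ j⟩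

end AB

section BC

theorem path_pi {ι S Δ : Type} {E : ι → S → Δ → S → Prop} {s t : ι → S} {w : List Δ} :
    Path (fun s a s' => ∀ j, E j (s j) a (s' j)) s w t ↔ ∀ j, Path (E j) (s j) w (t j) := by
  induction w generalizing s with
  | nil => simp [path_nil_iff, funext_iff]
  | cons a w ih =>
    simp only [path_cons_iff, ih]
    constructor
    · rintro ⟨s', h1, h2⟩ j; exact ⟨s' j, h1 j, h2 j⟩
    · intro h
      choose s' h1 h2 using h
      exact ⟨s', h1, h2⟩

theorem path_filter {S Δ : Type} {E : S → Δ → S → Prop} (p : Δ → Prop) [DecidablePred p]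
    {s t : S} {w : List Δ} :
    Path (fun s a s' => (p a ∧ E s a s') ∨ (¬ p a ∧ s = s')) s w t ↔
      Path E s (w.filter fun a => decide (p a)) t := by
  induction w generalizing s with
  | nil => simp [path_nil_iff]
  | cons a w ih =>
    by_cases h : p a
    · simp [path_cons_iff, ih, h]
    · simp [path_cons_iff, ih, h]

theorem flatten_ofFn_single {α : Type} {m : ℕ} (j : Fin m) (v : Fin m → List α)
    (h : ∀ i, i ≠ j → v i = []) : (List.ofFn v).flatten = v j := by
  induction m with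
  | zero => exact j.elim0
  | succ m ih =>
    rw [List.ofFn_succ, List.flatten_cons]
    refine Fin.cases (motive := fun j => (∀ i, i ≠ j → v i = []) →
      v 0 ++ (List.ofFn fun i : Fin m => v i.succ).flatten = v j) ?_ ?_ j h
    · intro h
      have : (List.ofFn fun i : Fin m => v i.succ).flatten = [] := by
        rw [List.flatten_eq_nil_iff]
        intro l hl
        obtain ⟨i, rfl⟩ := List.mem_ofFn.1 hl
        exact h _ (Fin.succ_ne_zero i)
      simp [this]
    · intro j h
      rw [h 0 (Fin.succ_ne_zero j).symm, List.nil_append]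
      exact ih j (fun i => v i.succ) fun i hi => h _ (fun e => hi (Fin.succ_injective _ e))

theorem filter_blocks {Δ : Type} {m : ℕ} (c : Δ → Fin m) (u : Fin m → List Δ)
    (h : ∀ j, ∀ a ∈ u j, c a = j) (j : Fin m) :
    (List.ofFn u).flatten.filter (fun a => decide (c a = j)) = u j := by
  rw [List.filter_flatten, List.map_ofFn]
  rw [flatten_ofFn_single j]
  · simpa using h j
  · intro i hi
    simp only [Function.comp, List.filter_eq_nil_iff, decide_eq_true_eq]
    intro a ha
    rw [h i a ha]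
    exact hi

theorem FormB.formC {T : Type} {n : ℕ} {L : Language T} (hL : FormB n L) : FormC n L := by
  classical
  obtain ⟨Δ, _, K, P, h, hK, ⟨G, rfl⟩, rfl⟩ := hL
  have := G.finN
  have := G.finRules.to_subtype
  let Δ' := Fin (n + 1) × G.rules
  let g : Δ' → List Δ := fun a => a.2.1.2.1
  let E : Fin (n + 1) → Option G.N → Δ' → Option G.N → Prop :=
    fun j s a s' => (a.1 = j ∧ RE G s a.2.1 s') ∨ (¬ a.1 = j ∧ s = s')
  let K' : Language Δ' := {w | w ∈ {w : List Δ' | w.flatMap g ∈ K} ∧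
    ∃ s ∈ {s : Fin (n + 1) → Option G.N | ∃ X ∈ G.start, s = fun j => some (X j)},
      ∃ t ∈ ({fun _ => none} : Set (Fin (n + 1) → Option G.N)),
        Path (fun s a s' => ∀ j, E j (s j) a (s' j)) s w t}
  have hK' : K'.IsContextFree :=
    (((isGS_of_isContextFree hK).comap g).inter_path _ _ _).isContextFree
  have hpath : ∀ (u : Fin (n + 1) → List Δ'), (∀ j, ∀ a ∈ u j, a.1 = j) →
      ∀ s t : Fin (n + 1) → Option G.N,
      (Path (fun s a s' => ∀ j, E j (s j) a (s' j)) s (List.ofFn u).flatten t ↔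
        ∀ j, Path (RE G) (s j) ((u j).map fun a => a.2.1) (t j)) := by
    intro u hu s t
    rw [path_pi]
    refine forall_congr' fun j => ?_
    rw [path_filter (E := fun s (a : Δ') s' => RE G s a.2.1 s') (fun a : Δ' => a.1 = j),
      filter_blocks Prod.fst u hu, path_map]
  refine ⟨Δ', inferInstance, K', Prod.fst, fun a => (g a).flatMap h, hK', ?_⟩
  ext w
  constructor
  · rintro ⟨v, ⟨hv, hP⟩, rfl⟩
    obtain ⟨X, hX, k, ρ, hρ, rfl⟩ := (prlg_iff _ _).1 hP
    have hmem : ∀ j, ∀ a ∈ ρ j, a ∈ G.rules := by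
      intro j
      have key : ∀ (l : List (G.N × List Δ × Option G.N)) s t, Path (RE G) s l t →
          ∀ a ∈ l, a ∈ G.rules := by
        intro l s t hp
        induction hp with
        | nil => simp
        | cons h1 _ ih =>
          intro a ha
          rcases List.mem_cons.1 ha with rfl | ha
          · exact h1.1
          · exact ih a ha
      exact key _ _ _ (hρ j).2
    choose ρ' hρ' using fun j => exists_lift (S := G.rules) (ρ j) (hmem j)
    let u : Fin (n + 1) → List Δ' := fun j => (ρ' j).map fun a => (j, a)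
    have hu : ∀ j, ∀ a ∈ u j, a.1 = j := by
      intro j a ha
      obtain ⟨b, -, rfl⟩ := List.mem_map.1 ha
      rfl
    have hu2 : ∀ j, (u j).map (fun a => a.2.1) = ρ j := by
      intro j
      rw [← hρ' j]
      simp [u]
    have hg : (List.ofFn u).flatten.flatMap g =
        (List.ofFn fun i => (ρ i).flatMap (·.2.1)).flatten := by
      rw [flatMap_flatten_ofFn]
      congr 2
      funext j
      rw [← hu2 j]
      exact (List.flatMap_map (fun a : Δ' => a.2.1) (fun x => x.2.1) (u j)).symm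
    obtain ⟨k, rfl⟩ : ∃ k', k = k' + 1 := by
      obtain ⟨e1, e2⟩ := hρ 0
      cases hl : ρ 0 with
      | nil => rw [hl] at e2; cases path_nil_iff.1 e2
      | cons a l => rw [hl] at e1; exact ⟨l.length, by simpa using e1.symm⟩
    refine ⟨(List.ofFn u).flatten, ⟨⟨?_, _, ⟨X, hX, rfl⟩, _, rfl, ?_⟩, k, u, ?_, rfl⟩, ?_⟩
    · show _ ∈ K
      rw [hg]; exact hv
    · rw [hpath u hu]
      intro j
      rw [hu2]
      exact (hρ j).2
    · intro j
      refine ⟨?_, hu j⟩
      rw [← (hρ j).1, ← hu2 j]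
      exact (List.length_map _).symm
    · rw [← hg, List.flatMap_assoc]
  · rintro ⟨_, ⟨⟨hv, _, ⟨X, hX, rfl⟩, _, rfl, hp⟩, k, u, hu, rfl⟩, rfl⟩
    rw [hpath u fun j => (hu j).2] at hp
    refine ⟨(List.ofFn u).flatten.flatMap g, ⟨hv, (prlg_iff _ _).2 ⟨X, hX, k + 1,
      fun j => (u j).map fun a => a.2.1, fun j => ⟨by simp [(hu j).1], hp j⟩, ?_⟩⟩, ?_⟩
    · rw [flatMap_flatten_ofFn]
      simp only [List.flatMap_map]
      rfl
    · rw [List.flatMap_assoc]

end BC

end Pool.Agent.Lib.MP_a569f2_lc
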