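import Pool.Agent.Lib.MP_a569f2_lc.CF

/-! Runs of pushdown automata and derivations of parallel grammars. -/

namespace Pool.Agent.Lib.MP_a569f2_lc

/-- The pushdown part of a run that empties the pushdown (top at the head). -/
inductive SP {Δ Γ : Type} (pop : Δ → Γ) (push : Δ → List Γ) : List Γ → List Δ → Prop
  | nil : SP pop push [] []
  | cons (a : Δ) {γ : List Γ} {w : List Δ} : SP pop push (push a ++ γ) w →
      SP pop push (pop a :: γ) (a :: w)

section
variable {Δ Γ : Type} {pop : Δ → Γ} {push : Δ → List Γ}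

theorem sp_nil_iff {γ : List Γ} : SP pop push γ [] ↔ γ = [] := by
  constructor
  · intro h; cases h; rfl
  · rintro rfl; exact SP.nil

theorem sp_cons_iff {γ : List Γ} {a : Δ} {w : List Δ} :
    SP pop push γ (a :: w) ↔ ∃ γ', γ = pop a :: γ' ∧ SP pop push (push a ++ γ') w := by
  constructor
  · intro h; cases h with | cons _ h => exact ⟨_, rfl, h⟩
  · rintro ⟨γ', rfl, h⟩; exact SP.cons a h

theorem SP.append {γ₁ γ₂ : List Γ} {u v : List Δ} (h₁ : SP pop push γ₁ u)
    (h₂ : SP pop push γ₂ v) : SP pop push (γ₁ ++ γ₂) (u ++ v) := by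
  induction h₁ with
  | nil => simpa using h₂
  | cons a _ ih => exact SP.cons a (by simpa using ih)

theorem SP.split {w : List Δ} : ∀ {γ₁ γ₂ : List Γ}, SP pop push (γ₁ ++ γ₂) w →
    ∃ u v, SP pop push γ₁ u ∧ SP pop push γ₂ v ∧ w = u ++ v := by
  induction w with
  | nil =>
    intro γ₁ γ₂ h
    rw [sp_nil_iff, List.append_eq_nil_iff] at h
    obtain ⟨rfl, rfl⟩ := h
    exact ⟨[], [], SP.nil, SP.nil, rfl⟩
  | cons a w ih =>
    intro γ₁ γ₂ h
    cases γ₁ with
    | nil => exact ⟨[], a :: w, SP.nil, h, rfl⟩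
    | cons Z γ₁ =>
      obtain ⟨γ', h1, h2⟩ := sp_cons_iff.1 h
      simp only [List.cons_append, List.cons.injEq] at h1
      obtain ⟨rfl, rfl⟩ := h1
      rw [← List.append_assoc] at h2
      obtain ⟨u, v, h3, h4, rfl⟩ := ih h2
      exact ⟨a :: u, v, SP.cons a h3, h4, rfl⟩

theorem mem_prd_sp {γ : List Γ} {w : List Δ} :
    w ∈ Prd (fun Z => {u | SP pop push [Z] u}) γ ↔ SP pop push γ w := by
  induction γ generalizing w with
  | nil =>
    rw [mem_prd_nil]
    constructor
    · rintro rfl; exact SP.nil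
    · intro h; cases h; rfl
  | cons Z γ ih =>
    constructor
    · rintro ⟨u, v, hu, hv, rfl⟩
      exact SP.append (γ₁ := [Z]) hu (ih.1 hv)
    · intro h
      obtain ⟨u, v, h1, h2, rfl⟩ := SP.split (γ₁ := [Z]) h
      exact ⟨u, v, h1, ih.2 h2, rfl⟩

theorem isGS_sp [Finite Δ] [Finite Γ] (Z : Γ) : IsGS {u | SP pop push [Z] u} := by
  obtain ⟨c, hc⟩ := (Set.finite_range fun b => (push b).length).bddAbove
  refine ⟨⟨Γ, inferInstance, fun Z => {u | SP pop push [Z] u}, c, ?_⟩, Z, rfl⟩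
  intro A a w hw
  obtain ⟨γ', h1, h2⟩ := sp_cons_iff.1 hw
  simp only [List.cons.injEq] at h1
  obtain ⟨rfl, rfl⟩ := h1
  refine ⟨push a, hc ⟨a, rfl⟩, mem_prd_sp.2 (by simpa using h2), ?_⟩
  intro w' hw'
  exact SP.cons a (by simpa using mem_prd_sp.1 hw')

theorem sp_map {Δ' : Type} (f : Δ' → Δ) {γ : List Γ} {w : List Δ'} :
    SP pop push γ (w.map f) ↔ SP (fun a => pop (f a)) (fun a => push (f a)) γ w := by
  induction w generalizing γ with
  | nil => simp [sp_nil_iff]
  | cons a w ih => simp [sp_cons_iff, ih]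

end

theorem path_map {S Δ Δ' : Type} {E : S → Δ → S → Prop} (f : Δ' → Δ) {s t : S} {w : List Δ'} :
    Path E s (w.map f) t ↔ Path (fun s a t => E s (f a) t) s w t := by
  induction w generalizing s with
  | nil => simp [path_nil_iff]
  | cons a w ih => simp [path_cons_iff, ih]

/-- The control part of a run. -/
def Ctl {T Q Γ : Type} (s : Q) (r : Rule T Q Γ) (t : Q) : Prop := r.src = s ∧ r.dst = t

theorem run_iff {T : Type} (M : SPDA T) (μ : List (Rule T M.Q M.Γ)) (α : List M.Γ) (q f : M.Q)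
    (x : List T) :
    Run M (α, q, x) μ ([], f, []) ↔ (∀ r ∈ μ, r ∈ M.δ) ∧
      SP Rule.pop (fun r => r.push.reverse) α.reverse μ ∧ Path Ctl q μ f ∧
      x = μ.flatMap Rule.read := by
  induction μ generalizing α q x with
  | nil =>
    simp only [List.not_mem_nil, false_imp_iff, implies_true, sp_nil_iff, List.reverse_eq_nil_iff,
      path_nil_iff, List.flatMap_nil, true_and]
    constructor
    · intro h
      generalize hc : (α, q, x) = c at h
      cases h
      simpa using hc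
    · rintro ⟨rfl, rfl, rfl⟩
      exact Run.nil _
  | cons r μ ih =>
    constructor
    · intro h
      generalize hc : (α, q, x) = c at h
      cases h with
      | cons _ β v _ _ hr h =>
        simp only [Prod.mk.injEq] at hc
        obtain ⟨rfl, rfl, rfl⟩ := hc
        obtain ⟨h1, h2, h3, h4⟩ := (ih _ _ _).1 h
        refine ⟨?_, ?_, Path.cons ⟨rfl, rfl⟩ h3, by simp [h4]⟩
        · intro r' hr'
          rcases List.mem_cons.1 hr' with rfl | hr'
          · exact hr
          · exact h1 r' hr'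
        · simp only [List.reverse_append, List.reverse_singleton, List.singleton_append] at h2 ⊢
          exact SP.cons r h2
    · rintro ⟨h1, h2, h3, rfl⟩
      obtain ⟨γ', h4, h5⟩ := sp_cons_iff.1 h2
      obtain ⟨s', ⟨rfl, rfl⟩, h6⟩ := path_cons_iff.1 h3
      have hα : α = γ'.reverse ++ [r.pop] := by
        rw [← List.reverse_reverse α, h4]; simp
      rw [hα, List.flatMap_cons]
      refine Run.cons r _ _ _ _ (h1 r (by simp)) ((ih _ _ _).2 ⟨fun r' hr' => h1 r' (by simp [hr']),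
        ?_, h6, rfl⟩)
      simpa using h5

theorem exists_ofFn {α : Type} {k : ℕ} (l : List α) (h : l.length = k) :
    ∃ r : Fin k → α, List.ofFn r = l := by
  subst h
  exact ⟨l.get, List.ofFn_get l⟩

theorem firstLang_iff {T : Type} (n : ℕ) (M : SPDA T) (w : List T) :
    w ∈ firstLang n M ↔ ∃ f ∈ M.F, ∃ (k : ℕ) (b : Fin (n + 1) → List (Rule T M.Q M.Γ)),
      Run M ([M.Z0], M.q0, w) (List.ofFn b).flatten ([], f, []) ∧
      (∀ j, (b j).length = k + 1) ∧
      (∃ ini las, b 0 = ini ++ [las] ∧ las.dst = M.qt ∧ ∀ r ∈ ini, r.dst ≠ M.qt) ∧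
      ∀ j : Fin n, ∃ r t r' t', b j.castSucc = r :: t ∧ b j.succ = r' :: t' ∧ (r, r') ∈ M.R := by
  constructor
  · rintro ⟨f, hf, k, r, h1, h2, h3, h4⟩
    refine ⟨f, hf, k, fun j => List.ofFn (r j), h1, by simp,
      ⟨List.ofFn fun i : Fin k => r 0 i.castSucc, r 0 (Fin.last k), ?_, h2, ?_⟩, ?_⟩
    · simp only [List.ofFn_succ', List.concat_eq_append]
    · intro r' hr'
      obtain ⟨i, rfl⟩ := List.mem_ofFn.1 hr'
      exact h3 _ (Fin.castSucc_ne_last i)
    · intro j
      exact ⟨_, _, _, _, List.ofFn_succ, List.ofFn_succ, h4 j⟩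
  · rintro ⟨f, hf, k, b, h1, h2, ⟨ini, las, h3, h4, h5⟩, h6⟩
    choose r hr using fun j => exists_ofFn (b j) (h2 j)
    have hb : (fun j => List.ofFn (r j)) = b := funext hr
    have h0 : (List.ofFn fun i : Fin k => r 0 i.castSucc) ++ [r 0 (Fin.last k)] = ini ++ [las] := by
      rw [← h3, ← hr 0]
      simp only [List.ofFn_succ', List.concat_eq_append]
    obtain ⟨h7, h8⟩ := List.append_inj' h0 rfl
    simp only [List.cons.injEq, and_true] at h8
    refine ⟨f, hf, k, r, by rw [hb]; exact h1, h8 ▸ h4, ?_, ?_⟩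
    · intro i hi
      obtain ⟨i, rfl⟩ := Fin.exists_castSucc_eq.2 hi
      exact h5 _ (h7 ▸ List.mem_ofFn.2 ⟨i, rfl⟩)
    · intro j
      obtain ⟨r₁, t, r₂, t', e1, e2, e3⟩ := h6 j
      rw [← hr, List.ofFn_succ] at e1 e2
      simp only [List.cons.injEq] at e1 e2
      rw [e1.1, e2.1]
      exact e3

/-- One rule of a right-linear grammar as an edge. -/
def RE {m : ℕ} {T : Type} (G : PRLG m T) (s : Option G.N) (ρ : G.N × List T × Option G.N)
    (s' : Option G.N) : Prop := ρ ∈ G.rules ∧ s = some ρ.1 ∧ s' = ρ.2.2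

theorem prlg_steps {m : ℕ} {T : Type} (G : PRLG m T) (s s' : Fin m → List T × Option G.N) :
    Relation.ReflTransGen G.Step s s' ↔
      ∃ (k : ℕ) (ρ : Fin m → List (G.N × List T × Option G.N)), ∀ i, (ρ i).length = k ∧
        Path (RE G) (s i).2 (ρ i) (s' i).2 ∧ (s' i).1 = (s i).1 ++ (ρ i).flatMap (·.2.1) := by
  constructor
  · intro h
    induction h using Relation.ReflTransGen.head_induction_on with
    | refl => exact ⟨0, fun _ => [], fun i => ⟨rfl, Path.nil _, by simp⟩⟩
    | @head a c h1 _ ih =>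
      obtain ⟨k, ρ, hρ⟩ := ih
      choose X w Y h2 h3 h4 using h1
      refine ⟨k + 1, fun i => (X i, w i, Y i) :: ρ i, fun i => ?_⟩
      obtain ⟨h5, h6, h7⟩ := hρ i
      rw [h4 i] at h6 h7
      exact ⟨by simp [h5], Path.cons ⟨h2 i, h3 i, rfl⟩ h6, by simpa using h7⟩
  · rintro ⟨k, ρ, hρ⟩
    induction k generalizing s ρ with
    | zero =>
      have : s = s' := by
        funext i
        obtain ⟨h1, h2, h3⟩ := hρ i
        rw [List.length_eq_zero_iff] at h1
        rw [h1] at h2 h3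
        exact Prod.ext (by simpa using h3.symm) (path_nil_iff.1 h2)
      rw [this]
    | succ k ih =>
      have h1 : ∀ i, ∃ a t, ρ i = a :: t := fun i =>
        List.exists_cons_of_length_eq_add_one (hρ i).1
      choose a t hat using h1
      refine Relation.ReflTransGen.head (b := fun i => ((s i).1 ++ (a i).2.1, (a i).2.2)) ?_
        (ih _ t ?_)
      · intro i
        obtain ⟨-, h2, -⟩ := hρ i
        rw [hat i] at h2
        obtain ⟨s₁, ⟨h3, h4, -⟩, -⟩ := path_cons_iff.1 h2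
        exact ⟨(a i).1, (a i).2.1, (a i).2.2, h3, h4, rfl⟩
      · intro i
        obtain ⟨h1, h2, h3⟩ := hρ i
        rw [hat i] at h1 h2 h3
        obtain ⟨s₁, ⟨-, -, rfl⟩, h5⟩ := path_cons_iff.1 h2
        exact ⟨by simpa using h1, h5, by simpa using h3⟩

theorem prlg_iff {m : ℕ} {T : Type} (G : PRLG m T) (w : List T) :
    w ∈ G.language ↔ ∃ X ∈ G.start, ∃ (k : ℕ) (ρ : Fin m → List (G.N × List T × Option G.N)),
      (∀ i, (ρ i).length = k ∧ Path (RE G) (some (X i)) (ρ i) none) ∧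
      w = (List.ofFn fun i => (ρ i).flatMap (·.2.1)).flatten := by
  constructor
  · rintro ⟨X, hX, y, h, rfl⟩
    obtain ⟨k, ρ, hρ⟩ := (prlg_steps G _ _).1 h
    refine ⟨X, hX, k, ρ, fun i => ⟨(hρ i).1, (hρ i).2.1⟩, ?_⟩
    congr 2
    funext i
    simpa using (hρ i).2.2
  · rintro ⟨X, hX, k, ρ, hρ, rfl⟩
    exact ⟨X, hX, _, (prlg_steps G _ _).2 ⟨k, ρ, fun i => ⟨(hρ i).1, (hρ i).2, by simp⟩⟩, rfl⟩

end Pool.Agent.Lib.MP_a569f2_lc
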