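import Pool.Agent.Lib.MP_a569f2_lc.Build

/-! A Parikh-type decomposition with two-sided pumps. -/

namespace Pool.Agent.Lib.MP_a569f2_lc

/-- A binary system: every nonempty word of a state splits as letter, left word, right word. -/
structure BSys (Δ : Type) where
  S : Type
  fin : Finite S
  Lang : S → Set (List Δ)
  step : ∀ s a w, a :: w ∈ Lang s → ∃ s₁ s₂ u v, w = u ++ v ∧ u ∈ Lang s₁ ∧ v ∈ Lang s₂ ∧
    ∀ u' ∈ Lang s₁, ∀ v' ∈ Lang s₂, a :: (u' ++ v') ∈ Lang s

theorem IsGS.exists_bsys {Δ : Type} {K : Set (List Δ)} (hK : IsGS K) :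
    ∃ (B : BSys Δ) (s : B.S), B.Lang s = K := by
  obtain ⟨G, A₀, rfl⟩ := hK
  have := G.fin
  refine ⟨⟨{γ : List G.Γ // γ.length ≤ G.m + 1}, (List.finite_length_le G.Γ (G.m + 1)).to_subtype,
    fun γ => Prd G.Lang γ.1, ?_⟩, ⟨[A₀], by simp⟩, ?_⟩
  · rintro ⟨γ, hγ⟩ a w hw
    simp only at hw ⊢
    induction γ with
    | nil => simp at hw
    | cons B γ ih =>
      obtain ⟨u, v, hu, hv, e⟩ := hw
      have hγ' : γ.length ≤ G.m + 1 := by simp only [List.length_cons] at hγ; omega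
      cases u with
      | nil =>
        simp only [List.nil_append] at e
        subst e
        obtain ⟨s₁, s₂, u, v, e1, e2, e3, e4⟩ := ih hγ' hv
        exact ⟨s₁, s₂, u, v, e1, e2, e3, fun u' hu' v' hv' => ⟨[], _, hu, e4 u' hu' v' hv', rfl⟩⟩
      | cons b u =>
        simp only [List.cons_append, List.cons.injEq] at e
        obtain ⟨rfl, rfl⟩ := e
        obtain ⟨γ', h1, h2, h3⟩ := G.step B a u hu
        exact ⟨⟨γ', by omega⟩, ⟨γ, hγ'⟩, u, v, rfl, h2, hv,
          fun u' hu' v' hv' => ⟨a :: u', v', h3 u' hu', hv', rfl⟩⟩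
  · ext w
    exact mem_prd_single

namespace BSys
variable {Δ : Type} (B : BSys Δ)

def Sound (s : B.S) (a : Δ) (s₁ s₂ : B.S) : Prop :=
  ∀ u' ∈ B.Lang s₁, ∀ v' ∈ B.Lang s₂, a :: (u' ++ v') ∈ B.Lang s

def Pump (s : B.S) (x y : List Δ) : Prop := ∀ w ∈ B.Lang s, x ++ w ++ y ∈ B.Lang s

/-- Derivations recording the set of states used; bounded pumps may be inserted. -/
inductive Gen (N : ℕ) : B.S → Set B.S → List Δ → Prop
  | leaf (s : B.S) : [] ∈ B.Lang s → Gen N s {s} []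
  | node {s s₁ s₂ : B.S} {a : Δ} {A₁ A₂ : Set B.S} {u v : List Δ} : B.Sound s a s₁ s₂ →
      Gen N s₁ A₁ u → Gen N s₂ A₂ v → Gen N s (insert s (A₁ ∪ A₂)) (a :: (u ++ v))
  | pump {s : B.S} {A : Set B.S} {w x y : List Δ} : B.Pump s x y → (x ++ y).length ≤ N →
      Gen N s A w → Gen N s A (x ++ w ++ y)

/-- Derivations without repeated states along a branch. -/
inductive Red : B.S → Set B.S → List Δ → Prop
  | leaf (s : B.S) : [] ∈ B.Lang s → Red s {s} []
  | node {s s₁ s₂ : B.S} {a : Δ} {A₁ A₂ : Set B.S} {u v : List Δ} : B.Sound s a s₁ s₂ →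
      Red s₁ A₁ u → Red s₂ A₂ v → s ∉ A₁ → s ∉ A₂ → Red s (insert s (A₁ ∪ A₂)) (a :: (u ++ v))

variable {B}

theorem Gen.mem {N : ℕ} {s : B.S} {A : Set B.S} {w : List Δ} (h : B.Gen N s A w) :
    w ∈ B.Lang s := by
  induction h with
  | leaf s h => exact h
  | node h _ _ ih1 ih2 => exact h _ ih1 _ ih2
  | pump h _ _ ih => exact h _ ih

theorem Gen.root {N : ℕ} {s : B.S} {A : Set B.S} {w : List Δ} (h : B.Gen N s A w) : s ∈ A := by
  induction h with
  | leaf s h => rfl
  | node h _ _ ih1 ih2 => exact Set.mem_insert _ _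
  | pump h _ _ ih => exact ih

theorem exists_gen (N : ℕ) : ∀ (n : ℕ) (w : List Δ), w.length < n → ∀ s, w ∈ B.Lang s →
    ∃ A, B.Gen N s A w := by
  intro n
  induction n with
  | zero => intro w h; omega
  | succ n ih =>
    intro w hw s hs
    cases w with
    | nil => exact ⟨_, Gen.leaf s hs⟩
    | cons a w =>
      obtain ⟨s₁, s₂, u, v, rfl, h1, h2, h3⟩ := B.step s a w hs
      simp only [List.length_cons, List.length_append] at hw
      obtain ⟨A₁, e1⟩ := ih u (by omega) s₁ h1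
      obtain ⟨A₂, e2⟩ := ih v (by omega) s₂ h2
      exact ⟨_, Gen.node h3 e1 e2⟩

theorem Gen.context {N : ℕ} {s : B.S} {A : Set B.S} {w : List Δ} (h : B.Gen N s A w) :
    ∀ s' ∈ A, ∃ α β u₀, u₀ ∈ B.Lang s' ∧ ∀ u ∈ B.Lang s', α ++ u ++ β ∈ B.Lang s := by
  induction h with
  | leaf s h =>
    rintro s' rfl
    exact ⟨[], [], [], h, by simp⟩
  | @node s s₁ s₂ a A₁ A₂ u v h h1 h2 ih1 ih2 =>
    rintro s' (rfl | hs | hs)
    · exact ⟨[], [], _, h _ h1.mem _ h2.mem, by simp⟩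
    · obtain ⟨α, β, u₀, e1, e2⟩ := ih1 s' hs
      refine ⟨a :: α, β ++ v, u₀, e1, fun u' hu' => ?_⟩
      simpa using h _ (e2 u' hu') _ h2.mem
    · obtain ⟨α, β, u₀, e1, e2⟩ := ih2 s' hs
      refine ⟨a :: (u ++ α), β, u₀, e1, fun u' hu' => ?_⟩
      simpa using h _ h1.mem _ (e2 u' hu')
  | @pump s A w x y h _ _ ih =>
    intro s' hs
    obtain ⟨α, β, u₀, e1, e2⟩ := ih s' hs
    refine ⟨x ++ α, β ++ y, u₀, e1, fun u' hu' => ?_⟩
    simpa using h _ (e2 u' hu')

theorem Gen.ins {N : ℕ} {s : B.S} {A : Set B.S} {w : List Δ} (h : B.Gen N s A w)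
    {s' : B.S} {x y : List Δ} (hp : B.Pump s' x y) (hN : (x ++ y).length ≤ N) (hs : s' ∈ A) :
    ∃ w', B.Gen N s A w' ∧ (w' : Multiset Δ) = (w : Multiset Δ) + ((x ++ y : List Δ) : Multiset Δ) := by
  have top : ∀ {A : Set B.S} {w : List Δ}, B.Gen N s' A w → ∃ w', B.Gen N s' A w' ∧
      (w' : Multiset Δ) = (w : Multiset Δ) + ((x ++ y : List Δ) : Multiset Δ) := by
    intro A w h
    refine ⟨_, Gen.pump hp hN h, ?_⟩
    simp only [← Multiset.coe_add]
    abel
  induction h with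
  | leaf s h =>
    obtain rfl : s' = s := hs
    exact top (Gen.leaf _ h)
  | @node s s₁ s₂ a A₁ A₂ u v h h1 h2 ih1 ih2 =>
    rcases hs with rfl | hs | hs
    · exact top (Gen.node h h1 h2)
    · obtain ⟨w', e1, e2⟩ := ih1 hs
      refine ⟨_, Gen.node h e1 h2, ?_⟩
      simp only [← Multiset.cons_coe, ← Multiset.coe_add, e2, ← Multiset.singleton_add]
      abel
    · obtain ⟨w', e1, e2⟩ := ih2 hs
      refine ⟨_, Gen.node h h1 e1, ?_⟩
      simp only [← Multiset.cons_coe, ← Multiset.coe_add, e2, ← Multiset.singleton_add]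
      abel
  | @pump s A w x' y' h hN' _ ih =>
    obtain ⟨w', e1, e2⟩ := ih hs
    refine ⟨_, Gen.pump h hN' e1, ?_⟩
    simp only [← Multiset.coe_add, e2]
    abel

theorem Red.mem {s : B.S} {A : Set B.S} {w : List Δ} (h : B.Red s A w) : w ∈ B.Lang s := by
  induction h with
  | leaf s h => exact h
  | node h _ _ _ _ ih1 ih2 => exact h _ ih1 _ ih2

theorem Red.length_le {s : B.S} {A : Set B.S} {w : List Δ} (h : B.Red s A w) :
    w.length + 1 ≤ 2 ^ A.ncard := by
  have := B.fin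
  induction h with
  | leaf s h => simp
  | @node s s₁ s₂ a A₁ A₂ u v _ _ _ h1 h2 ih1 ih2 =>
    have e : (insert s (A₁ ∪ A₂)).ncard = (A₁ ∪ A₂).ncard + 1 :=
      Set.ncard_insert_of_notMem (by simp [h1, h2])
    have e1 : 2 ^ A₁.ncard ≤ 2 ^ (A₁ ∪ A₂).ncard :=
      Nat.pow_le_pow_right (by norm_num) (Set.ncard_le_ncard Set.subset_union_left)
    have e2 : 2 ^ A₂.ncard ≤ 2 ^ (A₁ ∪ A₂).ncard :=
      Nat.pow_le_pow_right (by norm_num) (Set.ncard_le_ncard Set.subset_union_right)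
    rw [e, pow_succ]
    simp only [List.length_cons, List.length_append]
    omega

theorem Red.length_le' {s : B.S} {A : Set B.S} {w : List Δ} (h : B.Red s A w) :
    w.length + 1 ≤ 2 ^ Nat.card B.S := by
  have := B.fin
  refine h.length_le.trans (Nat.pow_le_pow_right (by norm_num) ?_)
  rw [← Set.ncard_univ]
  exact Set.ncard_le_ncard (Set.subset_univ _)

theorem Red.sub {s : B.S} {A : Set B.S} {w : List Δ} (h : B.Red s A w) :
    ∀ s' ∈ A, ∃ A' w' α β, A' ⊆ A ∧ B.Red s' A' w' ∧ w = α ++ w' ++ β ∧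
      ∀ u ∈ B.Lang s', α ++ u ++ β ∈ B.Lang s := by
  induction h with
  | leaf s h =>
    rintro s' rfl
    exact ⟨_, [], [], [], le_rfl, Red.leaf _ h, rfl, by simp⟩
  | @node s s₁ s₂ a A₁ A₂ u v h h1 h2 n1 n2 ih1 ih2 =>
    rintro s' (rfl | hs | hs)
    · exact ⟨_, _, [], [], le_rfl, Red.node h h1 h2 n1 n2, by simp, by simp⟩
    · obtain ⟨A', w', α, β, e1, e2, rfl, e4⟩ := ih1 s' hs
      refine ⟨A', w', a :: α, β ++ v, fun x hx => Or.inr (Or.inl (e1 hx)), e2, by simp,
        fun u' hu' => ?_⟩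
      simpa using h _ (e4 u' hu') _ h2.mem
    · obtain ⟨A', w', α, β, e1, e2, rfl, e4⟩ := ih2 s' hs
      refine ⟨A', w', a :: (u ++ α), β, fun x hx => Or.inr (Or.inr (e1 hx)), e2, by simp,
        fun u' hu' => ?_⟩
      simpa using h _ h1.mem _ (e4 u' hu')

/-- The letters of a pump. -/
def pm (p : B.S × List Δ × List Δ) : Multiset Δ := ((p.2.1 ++ p.2.2 : List Δ) : Multiset Δ)

/-- Admissible pumps. -/
def Adm (N : ℕ) (A : Set B.S) (p : B.S × List Δ × List Δ) : Prop :=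
  p.1 ∈ A ∧ B.Pump p.1 p.2.1 p.2.2 ∧ (p.2.1 ++ p.2.2).length ≤ N

theorem Gen.decomp {N : ℕ} (hN : 2 * 2 ^ Nat.card B.S ≤ N) {s : B.S} {A : Set B.S} {w : List Δ}
    (h : B.Gen N s A w) : ∃ A₀ w₀, ∃ ps : Multiset (B.S × List Δ × List Δ), A₀ ⊆ A ∧
      B.Red s A₀ w₀ ∧ (w : Multiset Δ) = (w₀ : Multiset Δ) + (ps.map pm).sum ∧
      ∀ p ∈ ps, Adm N A p := by
  induction h with
  | leaf s h => exact ⟨_, [], 0, le_rfl, Red.leaf s h, by simp, by simp⟩
  | @pump s A w x y h hl hg ih =>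
    obtain ⟨A₀, w₀, ps, e1, e2, e3, e4⟩ := ih
    refine ⟨A₀, w₀, (s, x, y) ::ₘ ps, e1, e2, ?_, ?_⟩
    · simp only [Multiset.map_cons, Multiset.sum_cons, pm, ← Multiset.coe_add, e3]
      abel
    · intro p hp
      rcases Multiset.mem_cons.1 hp with rfl | hp
      · exact ⟨hg.root, h, hl⟩
      · exact e4 p hp
  | @node s s₁ s₂ a A₁ A₂ u v h h1 h2 ih1 ih2 =>
    obtain ⟨C₁, u₀, ps₁, e1, e2, e3, e4⟩ := ih1
    obtain ⟨C₂, v₀, ps₂, f1, f2, f3, f4⟩ := ih2
    have hadm : ∀ p ∈ ps₁ + ps₂, Adm N (insert s (A₁ ∪ A₂)) p := by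
      intro p hp
      rcases Multiset.mem_add.1 hp with hp | hp
      · exact ⟨Or.inr (Or.inl (e4 p hp).1), (e4 p hp).2⟩
      · exact ⟨Or.inr (Or.inr (f4 p hp).1), (f4 p hp).2⟩
    have l1 := e2.length_le'
    have l2 := f2.length_le'
    by_cases c1 : s ∈ C₁
    · obtain ⟨A', w', α, β, g1, g2, rfl, g4⟩ := e2.sub s c1
      refine ⟨A', w', (s, a :: α, β ++ v₀) ::ₘ (ps₁ + ps₂),
        fun x hx => Or.inr (Or.inl (e1 (g1 hx))), g2, ?_, ?_⟩
      · rw [Multiset.map_cons, Multiset.sum_cons, Multiset.map_add, Multiset.sum_add]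
        generalize (Multiset.map pm ps₁).sum = X₁ at *
        generalize (Multiset.map pm ps₂).sum = X₂ at *
        simp only [pm, ← Multiset.cons_coe, ← Multiset.coe_add, e3, f3, ← Multiset.singleton_add]
        abel
      · intro p hp
        rcases Multiset.mem_cons.1 hp with rfl | hp
        · refine ⟨Or.inl rfl, fun u' hu' => ?_, ?_⟩
          · simpa using h _ (g4 u' hu') _ f2.mem
          · simp only [List.length_append, List.length_cons] at l1 ⊢
            omega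
        · exact hadm p hp
    by_cases c2 : s ∈ C₂
    · obtain ⟨A', w', α, β, g1, g2, rfl, g4⟩ := f2.sub s c2
      refine ⟨A', w', (s, a :: (u₀ ++ α), β) ::ₘ (ps₁ + ps₂),
        fun x hx => Or.inr (Or.inr (f1 (g1 hx))), g2, ?_, ?_⟩
      · rw [Multiset.map_cons, Multiset.sum_cons, Multiset.map_add, Multiset.sum_add]
        generalize (Multiset.map pm ps₁).sum = X₁ at *
        generalize (Multiset.map pm ps₂).sum = X₂ at *
        simp only [pm, ← Multiset.cons_coe, ← Multiset.coe_add, e3, f3, ← Multiset.singleton_add]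
        abel
      · intro p hp
        rcases Multiset.mem_cons.1 hp with rfl | hp
        · refine ⟨Or.inl rfl, fun u' hu' => ?_, ?_⟩
          · simpa using h _ e2.mem _ (g4 u' hu')
          · simp only [List.length_append, List.length_cons] at l2 ⊢
            omega
        · exact hadm p hp
    refine ⟨_, _, ps₁ + ps₂, ?_, Red.node h e2 f2 c1 c2, ?_, hadm⟩
    · exact Set.insert_subset_insert (Set.union_subset_union e1 f1)
    · simp only [Multiset.map_add, Multiset.sum_add,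
        ← Multiset.cons_coe, ← Multiset.coe_add, e3, f3, ← Multiset.singleton_add]
      abel

theorem Gen.insert_many {N : ℕ} {s : B.S} {A : Set B.S} (ps : Multiset (B.S × List Δ × List Δ))
    (hps : ∀ p ∈ ps, Adm N A p) {w : List Δ} (h : B.Gen N s A w) :
    ∃ w', B.Gen N s A w' ∧ (w' : Multiset Δ) = (w : Multiset Δ) + (ps.map pm).sum := by
  induction ps using Multiset.induction_on with
  | empty => exact ⟨w, h, by simp⟩
  | cons p ps ih =>
    obtain ⟨w', e1, e2⟩ := ih fun q hq => hps q (Multiset.mem_cons_of_mem hq)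
    obtain ⟨h1, h2, h3⟩ := hps p (Multiset.mem_cons_self _ _)
    obtain ⟨w'', f1, f2⟩ := e1.ins h2 h3 h1
    refine ⟨w'', f1, ?_⟩
    rw [f2, e2, Multiset.map_cons, Multiset.sum_cons, pm]
    abel

end BSys

/-- Conic Carathéodory: a nonnegative solution of `n` homogeneous equations on which a further
functional is positive can be replaced by one with support of size at most `n + 1`. -/
theorem cone_small_support {ι : Type} [DecidableEq ι] {n : ℕ} (v : ι → Fin n → ℚ) (ℓ : ι → ℚ) :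
    ∀ (k : ℕ) (S : Finset ι) (d : ι → ℚ), S.card ≤ k → (∀ i ∈ S, 0 ≤ d i) →
      (∑ i ∈ S, d i • v i = 0) → 0 < ∑ i ∈ S, d i * ℓ i →
      ∃ (S' : Finset ι) (d' : ι → ℚ), S' ⊆ S ∧ S'.card ≤ n + 1 ∧ (∀ i ∈ S', 0 ≤ d' i) ∧
        (∑ i ∈ S', d' i • v i = 0) ∧ 0 < ∑ i ∈ S', d' i * ℓ i := by
  intro k
  induction k with
  | zero =>
    intro S d hk _ _ h
    rw [Nat.le_zero, Finset.card_eq_zero] at hk
    simp [hk] at h
  | succ k ih =>
    intro S d hk hd hv hl
    by_cases hS : S.card ≤ n + 1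
    · exact ⟨S, d, le_rfl, hS, hd, hv, hl⟩
    have hdep : ¬ LinearIndependent ℚ (fun i : S => ((v i, ℓ i) : (Fin n → ℚ) × ℚ)) := by
      intro h
      have := h.fintype_card_le_finrank
      simp at this
      omega
    obtain ⟨z, hz, i₀, hi₀⟩ := Fintype.not_linearIndependent_iff.1 hdep
    obtain ⟨z, hz, i₀, hi₀⟩ : ∃ z : S → ℚ,
        ∑ i, z i • ((v i, ℓ i) : (Fin n → ℚ) × ℚ) = 0 ∧ ∃ i, 0 < z i := by
      rcases lt_or_gt_of_ne hi₀ with h | h
      · refine ⟨-z, ?_, i₀, by simpa using h⟩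
        simp only [Pi.neg_apply, neg_smul, Finset.sum_neg_distrib, hz, neg_zero]
      · exact ⟨z, hz, i₀, h⟩
    obtain ⟨j, hj, hmin⟩ := Finset.exists_min_image (Finset.univ.filter fun i : S => 0 < z i)
      (fun i => d i / z i) ⟨i₀, by simpa using hi₀⟩
    simp only [Finset.mem_filter, Finset.mem_univ, true_and] at hj hmin
    set t := d j / z j with ht
    have ht0 : 0 ≤ t := div_nonneg (hd j j.2) hj.le
    let z' : ι → ℚ := fun i => if h : i ∈ S then z ⟨i, h⟩ else 0
    have hz1 : ∑ i ∈ S, z' i • v i = 0 := by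
      have := congrArg Prod.fst hz
      rw [Prod.fst_sum] at this
      rw [← Finset.sum_coe_sort]
      simpa [z'] using this
    have hz2 : ∑ i ∈ S, z' i * ℓ i = 0 := by
      have := congrArg Prod.snd hz
      rw [Prod.snd_sum] at this
      rw [← Finset.sum_coe_sort]
      simpa [z'] using this
    have hzero : d j - t * z' j = 0 := by
      have : z' j = z j := by simp [z']
      rw [this, ht]
      field_simp
      ring
    refine (ih (S.erase j) (fun i => d i - t * z' i) ?_ ?_ ?_ ?_).imp fun S' h => h.imp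
      fun d' h => ⟨h.1.trans (Finset.erase_subset _ _), h.2⟩
    · rw [Finset.card_erase_of_mem j.2]; omega
    · intro i hi
      have hi' := Finset.mem_of_mem_erase hi
      have e : z' i = z ⟨i, hi'⟩ := by simp [z', hi']
      rw [e]
      by_cases hp : 0 < z ⟨i, hi'⟩
      · have := hmin ⟨i, hi'⟩ hp
        rw [le_div_iff₀ hp] at this
        linarith
      · have := hd i hi'
        nlinarith
    · rw [Finset.sum_erase _ (by rw [hzero, zero_smul])]
      simp only [sub_smul, mul_smul, Finset.sum_sub_distrib, ← Finset.smul_sum, hv, hz1]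
      simp
    · rw [Finset.sum_erase _ (by rw [hzero, zero_mul])]
      simp only [sub_mul, mul_assoc, Finset.sum_sub_distrib, ← Finset.mul_sum, hz2]
      simpa using hl

end Pool.Agent.Lib.MP_a569f2_lc
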