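import Pool.Agent.Lib.MP_a569f2_lc.Hier

/-! Strictness of the hierarchy over every alphabet with two letters. -/

namespace Pool.Agent.Lib.MP_a569f2_lc

theorem FSPDA.succ {T : Type} {n : ℕ} {L : Language T} (hL : FSPDA n L) : FSPDA (n + 1) L := by
  obtain ⟨Δ, _, K, c, h, hK, rfl⟩ := fspda_iff_formC.1 hL
  let g : Option Δ → List Δ := Option.toList
  let c' : Option Δ → Fin (n + 2) := fun o => o.elim (Fin.last _) fun a => (c a).castSucc
  have hg : ∀ l : List Δ, (l.map some).flatMap g = l := by
    intro l; induction l <;> simp_all [g]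
  refine fspda_iff_formC.2 ⟨Option Δ, inferInstance, {w | w.flatMap g ∈ K}, c',
    fun o => (g o).flatMap h, ((isGS_of_isContextFree hK).comap g).isContextFree, ?_⟩
  ext w
  constructor
  · rintro ⟨_, ⟨hv, k, u, hu, rfl⟩, rfl⟩
    let u' : Fin (n + 2) → List (Option Δ) :=
      Fin.snoc (α := fun _ => List (Option Δ)) (fun j => (u j).map some) (List.replicate (k + 1) none)
    have e : (List.ofFn u').flatten.flatMap g = (List.ofFn u).flatten := by
      rw [flatMap_flatten_ofFn, List.ofFn_succ']
      simp only [u', Fin.snoc_castSucc, Fin.snoc_last, hg, List.concat_eq_append,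
        List.flatten_append]
      simp [g]
    refine ⟨(List.ofFn u').flatten, ⟨show _ ∈ K by rw [e]; exact hv, k, u', fun j => ?_, rfl⟩, ?_⟩
    · refine Fin.lastCases ?_ (fun j => ?_) j
      · simp only [u', Fin.snoc_last, List.length_replicate, true_and]
        intro a ha
        rw [List.eq_of_mem_replicate ha]
        rfl
      · simp only [u', Fin.snoc_castSucc, List.length_map]
        refine ⟨(hu j).1, fun a ha => ?_⟩
        obtain ⟨b, hb, rfl⟩ := List.mem_map.1 ha
        simp [c', (hu j).2 b hb]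
    · rw [← e, List.flatMap_assoc]
  · rintro ⟨_, ⟨hv, k, u, hu, rfl⟩, rfl⟩
    have h1 : ∀ j : Fin (n + 1), ∃ l : List Δ, u j.castSucc = l.map some := by
      intro j
      have := (hu j.castSucc).2
      generalize u j.castSucc = l at this
      induction l with
      | nil => exact ⟨[], rfl⟩
      | cons o l ih =>
        obtain ⟨l', rfl⟩ := ih fun a ha => this a (List.mem_cons_of_mem _ ha)
        cases o with
        | none => exact absurd (this none (by simp)) (Fin.castSucc_ne_last j).symm
        | some a => exact ⟨a :: l', rfl⟩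
    choose v hvu using h1
    have h2 : (u (Fin.last _)).flatMap g = [] := by
      rw [List.flatMap_eq_nil_iff]
      rintro (_ | a) ha
      · rfl
      · exact absurd ((hu _).2 _ ha) (Fin.castSucc_ne_last _)
    have e : (List.ofFn u).flatten.flatMap g = (List.ofFn v).flatten := by
      rw [flatMap_flatten_ofFn, List.ofFn_succ']
      simp only [hvu, hg, List.concat_eq_append, List.flatten_append, h2]
      simp
    refine ⟨(List.ofFn v).flatten, ⟨by rw [← e]; exact hv, k, v, fun j => ⟨?_, ?_⟩, rfl⟩, ?_⟩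
    · rw [← (hu j.castSucc).1, hvu, List.length_map]
    · intro a ha
      have := (hu j.castSucc).2 (some a) (by rw [hvu]; exact List.mem_map_of_mem ha)
      exact Fin.castSucc_injective _ this
    · rw [← e, List.flatMap_assoc]

theorem FSPDA.hom {T T' : Type} {n : ℕ} {L : Language T} (hL : FSPDA n L) (g : T → List T') :
    FSPDA n (homImage g L) := by
  obtain ⟨Δ, _, K, c, h, hK, rfl⟩ := fspda_iff_formC.1 hL
  refine fspda_iff_formC.2 ⟨Δ, inferInstance, K, c, fun a => (h a).flatMap g, hK, ?_⟩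
  ext w
  constructor
  · rintro ⟨_, ⟨u, hu, rfl⟩, rfl⟩
    exact ⟨u, hu, List.flatMap_assoc⟩
  · rintro ⟨u, hu, rfl⟩
    exact ⟨_, ⟨u, hu, rfl⟩, List.flatMap_assoc.symm⟩

/-- Output of a sequential transducer. -/
def trans {R T T' : Type} (δ : R → T → R) (out : R → T → List T') : R → List T → List T'
  | _, [] => []
  | r, t :: w => out r t ++ trans δ out (δ r t) w

theorem trans_append {R T T' : Type} (δ : R → T → R) (out : R → T → List T') (r : R)
    (u v : List T) : trans δ out r (u ++ v) = trans δ out r u ++ trans δ out (u.foldl δ r) v := by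
  induction u generalizing r with
  | nil => rfl
  | cons t u ih => simp [trans, ih]

theorem FSPDA.gsm {T T' R : Type} [Finite R] {n : ℕ} {L : Language T} (hL : FSPDA n L)
    (δ : R → T → R) (out : R → T → List T') (r₀ : R) :
    FSPDA n {w | ∃ u ∈ L, w = trans δ out r₀ u} := by
  obtain ⟨Δ, _, K, c, h, hK, rfl⟩ := fspda_iff_formC.1 hL
  let E : R → Δ × R → R → Prop := fun r a r' => a.2 = r ∧ r' = (h a.1).foldl δ r
  have hK' := ((isGS_of_isContextFree hK).comap (fun a : Δ × R => [a.1])).inter_path E {r₀} Set.univ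
  have key1 : ∀ (w : List (Δ × R)) (r t : R), Path E r w t →
      w.flatMap (fun a => trans δ out a.2 (h a.1)) = trans δ out r ((w.map Prod.fst).flatMap h) := by
    intro w r t hp
    induction hp with
    | nil => rfl
    | cons h1 _ ih =>
      obtain ⟨rfl, rfl⟩ := h1
      simp [trans_append, ih]
  have key2 : ∀ (w : List Δ) (r : R), ∃ (w' : List (Δ × R)) (t : R), w'.map Prod.fst = w ∧
      Path E r w' t := by
    intro w
    induction w with
    | nil => intro r; exact ⟨[], r, rfl, Path.nil _⟩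
    | cons a w ih =>
      intro r
      obtain ⟨w', t, e1, e2⟩ := ih ((h a).foldl δ r)
      exact ⟨(a, r) :: w', t, by simp [e1], Path.cons ⟨rfl, rfl⟩ e2⟩
  refine fspda_iff_formC.2 ⟨Δ × R, inferInstance, _, fun a => c a.1,
    fun a => trans δ out a.2 (h a.1), hK'.isContextFree, ?_⟩
  ext w
  constructor
  · rintro ⟨_, ⟨_, ⟨hv, k, u, hu, rfl⟩, rfl⟩, rfl⟩
    obtain ⟨w', t, e1, e2⟩ := key2 (List.ofFn u).flatten r₀
    have hf : List.Forall₂ (fun (a : Δ × R) b => a.1 = b) w' (List.ofFn u).flatten := by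
      rw [← e1, List.forall₂_map_right_iff]
      exact List.forall₂_same.2 fun _ _ => rfl
    obtain ⟨b, rfl, hb⟩ := forall₂_flatten_inv u w' hf
    refine ⟨_, ⟨⟨?_, r₀, rfl, t, trivial, e2⟩, k, b, fun j => ⟨?_, ?_⟩, rfl⟩, ?_⟩
    · show _ ∈ K
      rw [← List.map_eq_flatMap, e1]
      exact hv
    · rw [(hb j).length_eq, (hu j).1]
    · intro a ha
      obtain ⟨p, hp, e⟩ := forall₂_mem (hb j) a ha
      subst e
      exact (hu j).2 _ hp
    · rw [key1 _ _ _ e2, e1]
  · rintro ⟨_, ⟨⟨hv, _, rfl, t, -, hp⟩, k, u, hu, rfl⟩, rfl⟩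
    have hv' : (List.ofFn u).flatten.map Prod.fst ∈ K := by
      rw [List.map_eq_flatMap]; exact hv
    refine ⟨_, ⟨(List.ofFn u).flatten.map Prod.fst, ⟨hv', k, fun j => (u j).map Prod.fst,
      fun j => ⟨by simp [(hu j).1], ?_⟩, map_flatten_ofFn _ _⟩, rfl⟩, key1 _ _ _ hp⟩
    intro a ha
    obtain ⟨b, hb, rfl⟩ := List.mem_map.1 ha
    exact (hu j).2 b hb

theorem mem_prd_ofFn {Γ Δ : Type} {Lang : Γ → Set (List Δ)} {m : ℕ} (γ : Fin m → Γ)
    (w : List Δ) : w ∈ Prd Lang (List.ofFn γ) ↔
      ∃ u : Fin m → List Δ, (∀ j, u j ∈ Lang (γ j)) ∧ w = (List.ofFn u).flatten := by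
  induction m generalizing w with
  | zero => simp
  | succ m ih =>
    rw [List.ofFn_succ, mem_prd_cons]
    constructor
    · rintro ⟨u, v, hu, hv, rfl⟩
      obtain ⟨u', h1, rfl⟩ := (ih _ v).1 hv
      refine ⟨Fin.cons u u', fun j => Fin.cases (by simpa using hu) (by simpa using h1) j, ?_⟩
      simp [List.ofFn_succ]
    · rintro ⟨u, hu, rfl⟩
      exact ⟨u 0, _, hu 0, (ih _ _).2 ⟨fun j => u j.succ, fun j => hu j.succ, rfl⟩,
        by simp [List.ofFn_succ]⟩

theorem isGS_prd {Δ : Type} (G : GSys Δ) (γ₀ : List G.Γ) : IsGS (Prd G.Lang γ₀) := by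
  have := G.fin
  let Lang' : Option G.Γ → Set (List Δ) := fun o => o.elim (Prd G.Lang γ₀) G.Lang
  have hp : ∀ γ : List G.Γ, Prd Lang' (γ.map some) = Prd G.Lang γ := fun γ => prd_map _ _
  refine ⟨⟨Option G.Γ, inferInstance, Lang', γ₀.length + G.m, ?_⟩, none, rfl⟩
  rintro (_ | A) a w hw
  · obtain ⟨γ, h1, h2, h3⟩ := G.step_prd γ₀ a w hw
    exact ⟨γ.map some, by simpa using h1, hp γ ▸ h2, hp γ ▸ h3⟩
  · obtain ⟨γ, h1, h2, h3⟩ := G.step A a w hw
    exact ⟨γ.map some, by simp; omega, hp γ ▸ h2, hp γ ▸ h3⟩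

/-- The system for `xᵏ yᵏ`. -/
def dyckG (n : ℕ) : GSys (Fin (n + 1) × Bool) where
  Γ := Fin (n + 1) × Bool
  fin := inferInstance
  Lang := fun p => if p.2 then {w | w = [(p.1, true)]} else
    {w | ∃ k, w = List.replicate k (p.1, false) ++ List.replicate k (p.1, true)}
  m := 2
  step := by
    rintro ⟨j, _ | _⟩ a w hw
    · obtain ⟨k, hk⟩ := hw
      cases k with
      | zero => simp at hk
      | succ k =>
        simp only [List.replicate_succ (n := k) (a := (j, false)), List.cons_append,
          List.cons.injEq] at hk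
        obtain ⟨rfl, rfl⟩ := hk
        refine ⟨[(j, false), (j, true)], le_rfl, ⟨_, [(j, true)], ⟨k, rfl⟩,
          mem_prd_single.2 rfl, by simp [List.replicate_succ']⟩, ?_⟩
        rintro w' ⟨u, v, ⟨k', rfl⟩, hv, rfl⟩
        rw [mem_prd_single] at hv
        obtain rfl : v = [(j, true)] := hv
        exact ⟨k' + 1, by simp [List.replicate_succ (n := k') (a := (j, false)),
          List.replicate_succ' (n := k') (a := (j, true))]⟩
    · have hw' : a :: w = [(j, true)] := hw
      simp only [List.cons.injEq] at hw'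
      obtain ⟨rfl, rfl⟩ := hw'
      refine ⟨[], by simp, rfl, ?_⟩
      rintro w' rfl
      rfl

theorem flatten_pairs {α : Type} (n : ℕ) (f : ℕ → List α) :
    (List.ofFn fun i : Fin (2 * n) => f i).flatten =
      (List.ofFn fun j : Fin n => f (2 * j) ++ f (2 * j + 1)).flatten := by
  induction n with
  | zero => simp
  | succ n ih =>
    have e : (List.ofFn fun i : Fin (2 * (n + 1)) => f i) =
        (List.ofFn fun i : Fin (2 * n) => f i) ++ [f (2 * n), f (2 * n + 1)] := by
      show (List.ofFn fun i : Fin (2 * n + 1 + 1) => f i) = _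
      rw [List.ofFn_succ', List.ofFn_succ']
      simp
    rw [e, List.flatten_append, ih, List.ofFn_succ']
    simp

theorem fspda_powLang (n : ℕ) : FSPDA n (powLang (2 * (n + 1))) := by
  let h : Fin (n + 1) × Bool → List (Fin (2 * (n + 1))) := fun p =>
    [⟨2 * p.1.1 + (if p.2 then 1 else 0), by have := p.1.2; split_ifs <;> omega⟩]
  refine fspda_iff_formC.2 ⟨Fin (n + 1) × Bool, inferInstance,
    Prd (dyckG n).Lang (List.ofFn fun j => (j, false)), Prod.fst, h,
    (isGS_prd (dyckG n) _).isContextFree, ?_⟩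
  have key : ∀ k : ℕ, (List.ofFn fun j : Fin (n + 1) =>
      List.replicate k (j, false) ++ List.replicate k (j, true)).flatten.flatMap h =
      powWord (2 * (n + 1)) k := by
    intro k
    let f : ℕ → List (Fin (2 * (n + 1))) := fun i =>
      if hi : i < 2 * (n + 1) then List.replicate k ⟨i, hi⟩ else []
    have e : powWord (2 * (n + 1)) k = (List.ofFn fun i : Fin (2 * (n + 1)) => f i).flatten := by
      simp [powWord, f]
    rw [e, flatten_pairs, flatMap_flatten_ofFn]
    congr 2
    funext j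
    have := j.2
    simp only [f, h, List.flatMap_append, List.flatMap_replicate,
      dif_pos (show 2 * j.1 < 2 * (n + 1) by omega),
      dif_pos (show 2 * j.1 + 1 < 2 * (n + 1) by omega)]
    simp
  ext w
  constructor
  · rintro ⟨k, rfl⟩
    refine ⟨_, ⟨(mem_prd_ofFn _ _).2 ⟨_, fun j => ⟨k + 1, rfl⟩, rfl⟩, 2 * k + 1, _,
      fun j => ⟨by simp; omega, ?_⟩, rfl⟩, (key (k + 1)).symm⟩
    intro a ha
    rcases List.mem_append.1 ha with ha | ha <;> rw [List.eq_of_mem_replicate ha]
  · rintro ⟨_, ⟨hv, k, u, hu, rfl⟩, rfl⟩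
    obtain ⟨v, hv1, hv2⟩ := (mem_prd_ofFn _ _).1 hv
    choose t ht using hv1
    have hcol : ∀ j, ∀ a ∈ v j, a.1 = j := by
      intro j a ha
      rw [ht j] at ha
      rcases List.mem_append.1 ha with ha | ha <;> rw [List.eq_of_mem_replicate ha]
    have huv : ∀ j, u j = v j := fun j => by
      rw [← filter_blocks Prod.fst u (fun j => (hu j).2) j, hv2, filter_blocks Prod.fst v hcol j]
    have hlen : ∀ j, 2 * t j = k + 1 := fun j => by
      rw [← (hu j).1, huv, ht j]; simp; omega
    refine ⟨t 0 - 1, ?_⟩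
    have e0 : t 0 - 1 + 1 = t 0 := by have := hlen 0; omega
    rw [e0, ← key]
    congr 3
    funext j
    have : t j = t 0 := by have := hlen 0; have := hlen j; omega
    rw [huv, ht j, this]

section code
variable {T : Type} [DecidableEq T] (a b : T) (m : ℕ)

def code (i : Fin m) : List T := List.replicate i.1 a ++ [b]

def dδ (r : Fin (m + 1)) (t : T) : Fin (m + 1) :=
  if t = a then ⟨min (r.1 + 1) m, by omega⟩ else 0

def dout (r : Fin (m + 1)) (t : T) : List (Fin m) :=
  if t = a then [] else if h : r.1 < m then [⟨r.1, h⟩] else []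

theorem decode_aux (hab : a ≠ b) (w : List T) (j : ℕ) : ∀ (r : Fin (m + 1)) (h : r.1 + j < m),
    trans (dδ a m) (dout a m) r (List.replicate j a ++ b :: w) =
      ⟨r.1 + j, h⟩ :: trans (dδ a m) (dout a m) 0 w := by
  induction j with
  | zero =>
    intro r h
    have h' : r.1 < m := by omega
    simp [trans, dδ, dout, hab.symm, h']
  | succ j ih =>
    intro r h
    have e : dδ a m r a = ⟨r.1 + 1, by omega⟩ := by
      simp only [dδ, if_true]
      exact Fin.ext (by simp; omega)
    rw [List.replicate_succ, List.cons_append, trans, e, ih _ (by simp; omega)]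
    simp only [dout, if_true, List.nil_append, List.cons.injEq, and_true]
    exact Fin.ext (by simp; omega)

theorem decode_code (hab : a ≠ b) (w : List (Fin m)) :
    trans (dδ a m) (dout a m) 0 (w.flatMap (code a b m)) = w := by
  induction w with
  | nil => rfl
  | cons i w ih =>
    rw [List.flatMap_cons, code, List.append_assoc, List.singleton_append,
      decode_aux a b m hab _ _ 0 (by simp), ih]
    simp

end code

theorem strict {T : Type} [Nontrivial T] (n : ℕ) :
    ∃ L : Language T, FSPDA (n + 1) L ∧ ¬ FSPDA n L := by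
  classical
  obtain ⟨a, b, hab⟩ := exists_pair_ne T
  refine ⟨homImage (code a b _) (powLang (2 * (n + 1 + 1))), (fspda_powLang (n + 1)).hom _, ?_⟩
  intro hL
  refine not_fspda_powLang (n := n) (m := 2 * (n + 1 + 1)) (by omega) ?_
  convert hL.gsm (dδ a _) (dout a _) 0 using 1
  ext w
  constructor
  · intro hw
    exact ⟨_, ⟨w, hw, rfl⟩, (decode_code a b _ hab w).symm⟩
  · rintro ⟨_, ⟨u, hu, rfl⟩, rfl⟩
    rwa [decode_code a b _ hab]

end Pool.Agent.Lib.MP_a569f2_lc
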